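import Pool.Agent.P.MP_d10cfe_mp.Shell

set_option autoImplicit false

namespace Pool.Agent.P.MP_d10cfe_mp

open MeasureTheory Set Real
open scoped ENNReal

noncomputable def kk (z : E3) : ℝ≥0∞ := ENNReal.ofReal (‖z‖⁻¹ ^ 2)

theorem measurable_kk : Measurable kk := by unfold kk; fun_prop

noncomputable def cc : ℝ≥0∞ := ∫⁻ z : E3, kk z * kk (z - EuclideanSpace.single 0 1)

theorem lintegral_smul_E3 (F : E3 → ℝ≥0∞) (hF : Measurable F) {a : ℝ} (ha : 0 < a) :
    ∫⁻ z, F z = ENNReal.ofReal (a ^ 3) * ∫⁻ w, F (a • w) := by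
  rw [← lintegral_map (g := fun w : E3 => a • w) hF (by fun_prop), Measure.map_addHaar_smul volume ha.ne', lintegral_smul_measure,
    smul_eq_mul, ← mul_assoc, ← ENNReal.ofReal_mul (by positivity)]
  simp only [finrank_euclideanSpace, Fintype.card_fin]
  rw [abs_of_pos (by positivity), mul_inv_cancel₀ (by positivity)]
  simp

theorem riesz0 (v : E3) (hv : v ≠ 0) :
    ∫⁻ z : E3, kk z * kk (z - v) = cc * ENNReal.ofReal (‖v‖⁻¹) := by
  set a := ‖v‖ with ha
  have ha0 : 0 < a := norm_pos_iff.2 hv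
  have hn : ‖v‖ = ‖(EuclideanSpace.single 0 a : E3)‖ := by simp [ha]
  set R := Submodule.reflection (ℝ ∙ (v - EuclideanSpace.single 0 a))ᗮ with hR
  have hRx : R v = EuclideanSpace.single 0 a := Submodule.reflection_sub hn
  have hm : ∀ u : E3, Measurable (fun z : E3 => kk z * kk (z - u)) := fun u =>
    measurable_kk.mul (measurable_kk.comp (by fun_prop))
  have h1 : ∀ z : E3, kk z * kk (z - v) =
      (fun w : E3 => kk w * kk (w - EuclideanSpace.single 0 a)) (R z) := by
    intro z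
    simp only [kk]
    rw [← hRx, ← map_sub, R.norm_map, R.norm_map]
  rw [lintegral_congr h1, R.measurePreserving.lintegral_comp (hm _), lintegral_smul_E3 _ (hm _) ha0]
  have h2 : ∀ w : E3, kk (a • w) * kk (a • w - EuclideanSpace.single 0 a) =
      ENNReal.ofReal (a⁻¹ ^ 4) * (kk w * kk (w - EuclideanSpace.single 0 1)) := by
    intro w
    have : (EuclideanSpace.single 0 a : E3) = a • EuclideanSpace.single 0 1 := by
      ext i
      simp
    rw [this, ← smul_sub]
    simp only [kk, norm_smul, Real.norm_eq_abs, abs_of_pos ha0]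
    rw [← ENNReal.ofReal_mul (by positivity), ← ENNReal.ofReal_mul (by positivity),
      ← ENNReal.ofReal_mul (by positivity)]
    congr 1
    rw [mul_inv, mul_inv]
    ring
  rw [lintegral_congr h2, lintegral_const_mul _ (hm _), ← mul_assoc,
    ← ENNReal.ofReal_mul (by positivity), mul_comm]
  congr 2
  field_simp

theorem riesz (x y : E3) (h : x ≠ y) :
    ∫⁻ z : E3, kk (x - z) * kk (y - z) = cc * ENNReal.ofReal (‖x - y‖⁻¹) := by
  rw [← lintegral_add_right_eq_self _ x, norm_sub_rev x y,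
    ← riesz0 (y - x) (sub_ne_zero.2 h.symm)]
  refine lintegral_congr ?_
  intro z
  simp only [kk]
  rw [show x - (z + x) = -z by abel, norm_neg, show y - (z + x) = -(z - (y - x)) by abel, norm_neg]

theorem cc_ne_zero : cc ≠ 0 := by
  intro h
  have hm : Measurable (fun z : E3 => kk z * kk (z - EuclideanSpace.single 0 1)) :=
    measurable_kk.mul (measurable_kk.comp (by fun_prop))
  have h1 := (lintegral_eq_zero_iff hm).1 h
  have h2 : ∀ᵐ z : E3, False := by
    filter_upwards [h1, Measure.ae_ne volume (0 : E3),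
      Measure.ae_ne volume (EuclideanSpace.single 0 1 : E3)] with z hz hz0 hz1
    have h3 : 0 < ‖z‖ := norm_pos_iff.2 hz0
    have h4 : 0 < ‖z - EuclideanSpace.single 0 1‖ := norm_pos_iff.2 (sub_ne_zero.2 hz1)
    simp only [kk, Pi.zero_apply, mul_eq_zero, ENNReal.ofReal_eq_zero] at hz
    rcases hz with hz | hz
    · exact absurd hz (not_le.2 (by positivity))
    · exact absurd hz (not_le.2 (by positivity))
  rw [Filter.eventually_false_iff_eq_bot, ae_eq_bot] at h2
  exact (NeZero.ne (volume : Measure E3)) h2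

theorem cc_ne_top : cc ≠ ⊤ := by
  set G : ℝ → ℝ≥0∞ := fun r => ENNReal.ofReal (r⁻¹ ^ 2 * (8 / (1 + r ^ 2))) with hG
  have hGm : Measurable G := by rw [hG]; fun_prop
  have key : ∀ s t : ℝ, 0 ≤ s → s ≤ t → 1 ≤ s + t → s⁻¹ ^ 2 * t⁻¹ ^ 2 ≤ s⁻¹ ^ 2 * (8 / (1 + s ^ 2)) := by
    intro s t hs hst h1
    refine mul_le_mul_of_nonneg_left ?_ (by positivity)
    have ht : 0 < t := by linarith
    rw [inv_pow, inv_eq_one_div, div_le_div_iff₀ (by positivity) (by positivity)]
    nlinarith
  have h1 : ∀ z : E3, kk z * kk (z - EuclideanSpace.single 0 1) ≤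
      G ‖z‖ + G ‖z - EuclideanSpace.single 0 1‖ := by
    intro z
    have h2 : 1 ≤ ‖z‖ + ‖z - EuclideanSpace.single 0 1‖ := by
      have := norm_sub_le z (z - EuclideanSpace.single 0 1)
      simpa using this
    simp only [kk, hG]
    rw [← ENNReal.ofReal_mul (by positivity)]
    rcases le_total ‖z‖ ‖z - EuclideanSpace.single 0 1‖ with h | h
    · exact le_add_right (ENNReal.ofReal_le_ofReal (key _ _ (norm_nonneg _) h h2))
    · refine le_add_left (ENNReal.ofReal_le_ofReal ?_)
      rw [mul_comm]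
      exact key _ _ (norm_nonneg _) h (by linarith)
  have h3 : ∫⁻ z : E3, G ‖z‖ < ⊤ := by
    rw [lintegral_radial3 G hGm]
    refine ENNReal.mul_lt_top ENNReal.ofReal_lt_top ?_
    have h4 : ∀ r ∈ Ioi (0 : ℝ), G r * ENNReal.ofReal (r ^ 2) =
        ENNReal.ofReal (8 * (1 + r ^ 2)⁻¹) := by
      intro r hr
      have hr' : 0 < r := hr
      simp only [hG]
      rw [← ENNReal.ofReal_mul (by positivity)]
      congr 1
      field_simp
    rw [setLIntegral_congr_fun measurableSet_Ioi h4]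
    exact (integrable_inv_one_add_sq.const_mul 8).integrableOn.lintegral_lt_top
  refine ne_of_lt (lt_of_le_of_lt (lintegral_mono h1) ?_)
  rw [lintegral_add_left (by fun_prop), lintegral_sub_right_eq_self (fun z : E3 => G ‖z‖)]
  exact ENNReal.add_lt_top.2 ⟨h3, h3⟩

/-- Coulomb potential of a nonnegative function, with values in `[0, ∞]`. -/
noncomputable def cP (f : E3 → ℝ≥0∞) (x : E3) : ℝ≥0∞ := ∫⁻ y, f y * ENNReal.ofReal (‖x - y‖⁻¹)

theorem measurable_cP {f : E3 → ℝ≥0∞} (hf : Measurable f) : Measurable (cP f) := by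
  unfold cP
  exact Measurable.lintegral_prod_right' (f := fun p : E3 × E3 =>
    f p.2 * ENNReal.ofReal (‖p.1 - p.2‖⁻¹)) (by fun_prop)

noncomputable def cF (f : E3 → ℝ≥0∞) (z : E3) : ℝ≥0∞ := ∫⁻ x, f x * kk (x - z)

theorem measurable_cF {f : E3 → ℝ≥0∞} (hf : Measurable f) : Measurable (cF f) := by
  unfold cF
  exact Measurable.lintegral_prod_right' (f := fun p : E3 × E3 => f p.2 * kk (p.2 - p.1))
    ((hf.comp measurable_snd).mul (measurable_kk.comp (by fun_prop)))

theorem cc_mul_D {f g : E3 → ℝ≥0∞} (hf : Measurable f) (hg : Measurable g) :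
    cc * ∫⁻ x, f x * cP g x = ∫⁻ z, cF f z * cF g z := by
  have hk := measurable_kk
  have hP := measurable_cP hg
  have hF := measurable_cF hg
  have h1 : ∀ x : E3, cc * cP g x = ∫⁻ z, kk (x - z) * cF g z := by
    intro x
    have h2 : ∀ z : E3, kk (x - z) * cF g z = ∫⁻ y, g y * (kk (x - z) * kk (y - z)) := by
      intro z
      unfold cF
      rw [← lintegral_const_mul _ (by fun_prop)]
      refine lintegral_congr (fun y => ?_)
      ring
    rw [lintegral_congr h2, lintegral_lintegral_swap (by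
      refine Measurable.aemeasurable ?_
      unfold Function.uncurry
      fun_prop)]
    unfold cP
    rw [← lintegral_const_mul _ (by fun_prop)]
    refine lintegral_congr_ae ?_
    filter_upwards [Measure.ae_ne volume x] with y hy
    rw [lintegral_const_mul _ (by fun_prop), riesz x y hy.symm]
    ring
  rw [← lintegral_const_mul _ (by fun_prop)]
  have h3 : ∀ x : E3, cc * (f x * cP g x) = ∫⁻ z, f x * kk (x - z) * cF g z := by
    intro x
    rw [mul_left_comm, h1, ← lintegral_const_mul _ (by fun_prop)]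
    refine lintegral_congr (fun z => ?_)
    ring
  rw [lintegral_congr h3, lintegral_lintegral_swap (by
    refine Measurable.aemeasurable ?_
    unfold Function.uncurry
    fun_prop)]
  refine lintegral_congr (fun z => ?_)
  rw [lintegral_mul_const _ (by fun_prop)]
  rfl

theorem two_mul_le_add (a b : ℝ≥0∞) : 2 * (a * b) ≤ a * a + b * b := by
  rcases eq_or_ne a ⊤ with ha | ha
  · simp [ha]
  rcases eq_or_ne b ⊤ with hb | hb
  · simp [hb]
  lift a to NNReal using ha
  lift b to NNReal using hb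
  have : 2 * (a * b) ≤ a * a + b * b := by
    rw [← NNReal.coe_le_coe]
    push_cast
    nlinarith [sq_nonneg ((a : ℝ) - b)]
  exact_mod_cast this

/-- Positive definiteness of the Coulomb kernel. -/
theorem coulomb_pos_def {f g : E3 → ℝ≥0∞} (hf : Measurable f) (hg : Measurable g) :
    2 * ∫⁻ x, f x * cP g x ≤ (∫⁻ x, f x * cP f x) + ∫⁻ x, g x * cP g x := by
  have hF := measurable_cF hf
  have hG := measurable_cF hg
  refine (ENNReal.mul_le_mul_iff_right cc_ne_zero cc_ne_top).1 ?_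
  rw [mul_left_comm, mul_add, cc_mul_D hf hg, cc_mul_D hf hf, cc_mul_D hg hg,
    ← lintegral_const_mul _ (by fun_prop), ← lintegral_add_left (by fun_prop)]
  exact lintegral_mono (fun z => two_mul_le_add _ _)

theorem singular_lt_top :
    ∫⁻ y : E3, (Iio (1 : ℝ)).indicator (fun r => ENNReal.ofReal (r ^ (-5 / 2 : ℝ))) ‖y‖ < ⊤ := by
  rw [lintegral_radial3 _ (Measurable.indicator (by fun_prop) measurableSet_Iio)]
  refine ENNReal.mul_lt_top ENNReal.ofReal_lt_top ?_
  have h4 : ∀ r ∈ Ioi (0 : ℝ), (Iio (1 : ℝ)).indicator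
      (fun r => ENNReal.ofReal (r ^ (-5 / 2 : ℝ))) r * ENNReal.ofReal (r ^ 2) =
      (Iio (1 : ℝ)).indicator (fun r => ENNReal.ofReal (r ^ (-1 / 2 : ℝ))) r := by
    intro r hr
    have hr' : 0 < r := hr
    by_cases h : r ∈ Iio (1 : ℝ)
    · rw [indicator_of_mem h, indicator_of_mem h, ← ENNReal.ofReal_mul (by positivity)]
      congr 1
      rw [← rpow_natCast, ← rpow_add hr']
      norm_num
    · rw [indicator_of_notMem h, indicator_of_notMem h, zero_mul]
  rw [setLIntegral_congr_fun measurableSet_Ioi h4, lintegral_indicator measurableSet_Iio,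
    Measure.restrict_restrict measurableSet_Iio, inter_comm, Ioi_inter_Iio]
  have := (intervalIntegral.integrableOn_Ioo_rpow_iff (s := (-1 / 2 : ℝ)) (t := 1) one_pos).2
    (by norm_num)
  exact this.lintegral_lt_top

theorem young_pt (s r : ℝ) (hs : 0 ≤ s) (hr : 0 ≤ r) :
    ENNReal.ofReal s * ENNReal.ofReal r⁻¹ ≤ ENNReal.ofReal s + ENNReal.ofReal (s ^ (5 / 3 : ℝ)) +
      (Iio (1 : ℝ)).indicator (fun r => ENNReal.ofReal (r ^ (-5 / 2 : ℝ))) r := by
  rw [← ENNReal.ofReal_mul hs]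
  rcases hr.eq_or_lt with h0 | h0
  · simp [← h0]
  by_cases h1 : r ∈ Iio (1 : ℝ)
  · rw [indicator_of_mem h1]
    by_cases h2 : r⁻¹ ≤ s ^ (2 / 3 : ℝ)
    · refine le_add_right (le_add_left (ENNReal.ofReal_le_ofReal ?_))
      calc s * r⁻¹ ≤ s * s ^ (2 / 3 : ℝ) := mul_le_mul_of_nonneg_left h2 hs
        _ = s ^ (5 / 3 : ℝ) := by
            rw [show (5 / 3 : ℝ) = 1 + 2 / 3 by norm_num, rpow_add' hs (by norm_num), rpow_one]
    · refine le_add_left (ENNReal.ofReal_le_ofReal ?_)
      have h3 : s ≤ r ^ (-3 / 2 : ℝ) := by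
        calc s = (s ^ (2 / 3 : ℝ)) ^ (3 / 2 : ℝ) := by
              rw [← rpow_mul hs]
              norm_num
          _ ≤ (r⁻¹) ^ (3 / 2 : ℝ) :=
              rpow_le_rpow (by positivity) (not_le.1 h2).le (by norm_num)
          _ = r ^ (-3 / 2 : ℝ) := by
              rw [inv_rpow h0.le, ← rpow_neg h0.le]
              norm_num
      calc s * r⁻¹ ≤ r ^ (-3 / 2 : ℝ) * r⁻¹ := mul_le_mul_of_nonneg_right h3 (by positivity)
        _ = r ^ (-5 / 2 : ℝ) := by
            rw [← rpow_neg_one, ← rpow_add h0]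
            norm_num
  · refine le_add_right (le_add_right (ENNReal.ofReal_le_ofReal ?_))
    have h2 : 1 ≤ r := not_lt.1 h1
    exact mul_le_of_le_one_right hs (inv_le_one_of_one_le₀ h2)

theorem cP_bound {ρ : E3 → ℝ} (hm : Measurable ρ) (h0 : ∀ x, 0 ≤ ρ x) (h1 : Integrable ρ)
    (h2 : Integrable (fun x => ρ x ^ (5 / 3 : ℝ))) :
    ∃ C : ℝ≥0∞, C < ⊤ ∧ ∀ x, cP (fun y => ENNReal.ofReal (ρ y)) x ≤ C := by
  refine ⟨(∫⁻ y, ENNReal.ofReal (ρ y)) + (∫⁻ y, ENNReal.ofReal (ρ y ^ (5 / 3 : ℝ))) +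
    ∫⁻ y : E3, (Iio (1 : ℝ)).indicator (fun r => ENNReal.ofReal (r ^ (-5 / 2 : ℝ))) ‖y‖,
    ENNReal.add_lt_top.2 ⟨ENNReal.add_lt_top.2 ⟨h1.lintegral_lt_top, h2.lintegral_lt_top⟩,
      singular_lt_top⟩, ?_⟩
  intro x
  rw [← lintegral_sub_left_eq_self (fun y : E3 =>
    (Iio (1 : ℝ)).indicator (fun r => ENNReal.ofReal (r ^ (-5 / 2 : ℝ))) ‖y‖) x,
    ← lintegral_add_left (by fun_prop), ← lintegral_add_left (by fun_prop)]
  exact lintegral_mono (fun y => young_pt _ _ (h0 y) (norm_nonneg _))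

end Pool.Agent.P.MP_d10cfe_mp
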