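import Mathlib

set_option autoImplicit false

namespace Pool.Agent.P.MP_d10cfe_mp

open MeasureTheory

/-- The Coulomb potential `|x|⁻¹ * f` of a density `f` on `ℝ³`. -/
noncomputable def coulombPot (f : EuclideanSpace ℝ (Fin 3) → ℝ) (x : EuclideanSpace ℝ (Fin 3)) :
    ℝ :=
  ∫ y, f y / ‖x - y‖

/-- Nonnegative measurable functions in `L¹ ∩ L^(5/3)`. -/
def AdmissibleDensity (ρ : EuclideanSpace ℝ (Fin 3) → ℝ) : Prop :=
  Measurable ρ ∧ (∀ x, 0 ≤ ρ x) ∧ Integrable ρ ∧ Integrable (fun x => ρ x ^ (5 / 3 : ℝ))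

/-- The Thomas-Fermi functional. -/
noncomputable def tfEnergy (γ : ℝ) (V ρ : EuclideanSpace ℝ (Fin 3) → ℝ) : ℝ :=
  3 / 5 * γ * (∫ x, ρ x ^ (5 / 3 : ℝ)) - (∫ x, V x * ρ x) +
    1 / 2 * ∫ x, ∫ y, ρ x * ρ y / ‖x - y‖

/-- `ρ` minimises the Thomas-Fermi functional among densities of mass `lam` and satisfies the
Thomas-Fermi equation at every point. -/
def IsTFDensity (γ : ℝ) (V : EuclideanSpace ℝ (Fin 3) → ℝ) (lam : ℝ)
    (ρ : EuclideanSpace ℝ (Fin 3) → ℝ) : Prop :=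
  AdmissibleDensity ρ ∧ ∫ x, ρ x = lam ∧
    (∀ σ, AdmissibleDensity σ → ∫ x, σ x = lam → tfEnergy γ V ρ ≤ tfEnergy γ V σ) ∧
    ∃ μ : ℝ, 0 ≤ μ ∧ ∀ x, γ * ρ x ^ (2 / 3 : ℝ) = max (V x - coulombPot ρ x - μ) 0

end Pool.Agent.P.MP_d10cfe_mp
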