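import Pool.Agent.P.MP_d10cfe_mp.Radial

set_option autoImplicit false

namespace Pool.Agent.P.MP_d10cfe_mp

open MeasureTheory Set Real Filter Topology
open scoped ENNReal

/-- The (rescaled) potential of the neutral atom. -/
noncomputable def U (s : ℝ) : ℝ := if s ≤ 1 then 432 - 288 * s ^ 2 else 144 * s⁻¹ ^ 4

theorem measurable_U : Measurable U :=
  Measurable.ite measurableSet_Iic (by fun_prop) (by fun_prop)

theorem U_le (s : ℝ) : U s ≤ 432 := by
  unfold U
  split_ifs with h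
  · nlinarith [sq_nonneg s]
  · have h1 : 1 ≤ s := (not_le.1 h).le
    have h2 : s⁻¹ ≤ 1 := inv_le_one_of_one_le₀ h1
    have h3 : s⁻¹ ^ 4 ≤ 1 := pow_le_one₀ (by positivity) h2
    linarith

theorem U_pos {s : ℝ} (hs : 0 ≤ s) : 0 < U s := by
  unfold U
  split_ifs with h
  · nlinarith
  · have h1 : 0 < s := by linarith [not_le.1 h]
    positivity

theorem U_gt_one {s : ℝ} (hs : 0 ≤ s) (h1 : s ≤ 1) : 1 < U s := by
  rw [U, if_pos h1]
  nlinarith

/-- Difference of the two (rescaled) densities. -/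
noncomputable def Hh (s w : ℝ) : ℝ := √(U s) ^ 3 - √(U s - w) ^ 3

theorem Hh_nonneg (s : ℝ) {w : ℝ} (hw : 0 ≤ w) : 0 ≤ Hh s w :=
  sub_nonneg.2 (pow_le_pow_left₀ (sqrt_nonneg _) (sqrt_le_sqrt (by linarith)) 3)

theorem Hh_pos {s w : ℝ} (hs : 0 ≤ s) (hw : 0 < w) : 0 < Hh s w := by
  refine sub_pos.2 (pow_lt_pow_left₀ ?_ (sqrt_nonneg _) (by norm_num))
  rcases le_total 0 (U s - w) with h | h
  · exact sqrt_lt_sqrt h (by linarith)
  · rw [sqrt_eq_zero'.2 h]
    exact sqrt_pos.2 (U_pos hs)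

theorem Hh_le {s w : ℝ} (hs : 0 ≤ s) (hw : 0 ≤ w) : Hh s w ≤ 32 * w := by
  unfold Hh
  have hU := U_pos hs
  have ha : √(U s) ^ 2 = U s := sq_sqrt hU.le
  have hb : U s - w ≤ √(U s - w) ^ 2 := by
    rw [sq_sqrt']
    exact le_max_left _ _
  have hab : √(U s - w) ≤ √(U s) := sqrt_le_sqrt (by linarith)
  have hb0 : 0 ≤ √(U s - w) := sqrt_nonneg _
  have ha21 : √(U s) ≤ 21 := by
    rw [sqrt_le_left (by norm_num)]
    linarith [U_le s]
  generalize √(U s) = a at *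
  generalize √(U s - w) = b at *
  have ha0 : 0 ≤ a := hb0.trans hab
  have h1 : a ^ 2 - b ^ 2 ≤ w := by linarith
  have h2 : 0 ≤ a ^ 2 - b ^ 2 := by nlinarith
  have h3 : a ^ 3 - b ^ 3 ≤ 3 / 2 * a * (a ^ 2 - b ^ 2) := by
    have : 0 ≤ (a - b) * ((a - b) * (a + 2 * b)) :=
      mul_nonneg (by linarith) (mul_nonneg (by linarith) (by linarith))
    nlinarith
  nlinarith

theorem Hh_three {w : ℝ} (hw : 0 ≤ w) (hw1 : w ≤ 1) : 4 / 3 * w ≤ Hh 3 w := by
  unfold Hh
  have hU : U 3 = (4 / 3) ^ 2 := by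
    rw [U, if_neg (by norm_num)]
    norm_num
  rw [hU, sqrt_sq (by norm_num)]
  have hb : √((4 / 3) ^ 2 - w) ^ 2 = (4 / 3) ^ 2 - w := sq_sqrt (by linarith)
  have hb0 : 0 ≤ √((4 / 3) ^ 2 - w) := sqrt_nonneg _
  have hab : √((4 / 3) ^ 2 - w) ≤ 4 / 3 := by
    rw [sqrt_le_left (by norm_num)]
    linarith
  generalize √((4 / 3) ^ 2 - w) = b at *
  nlinarith [mul_nonneg (sq_nonneg b) (sub_nonneg.2 hab)]

/-- The version of `Hh` with extended values. -/
noncomputable def G (s : ℝ) (w : ℝ≥0∞) : ℝ≥0∞ :=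
  ENNReal.ofReal (√(U s) ^ 3 - √((ENNReal.ofReal (U s) - w).toReal) ^ 3)

theorem G_mono (s : ℝ) : Monotone (G s) := by
  intro w w' h
  refine ENNReal.ofReal_le_ofReal (sub_le_sub_left ?_ _)
  refine pow_le_pow_left₀ (sqrt_nonneg _) (sqrt_le_sqrt ?_) 3
  exact ENNReal.toReal_mono (ne_top_of_le_ne_top ENNReal.ofReal_ne_top tsub_le_self)
    (tsub_le_tsub_left h _)

theorem G_ofReal (s : ℝ) {w : ℝ} (hw : 0 ≤ w) :
    G s (ENNReal.ofReal w) = ENNReal.ofReal (Hh s w) := by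
  unfold G Hh
  rw [← ENNReal.ofReal_sub _ hw, ENNReal.toReal_ofReal']
  congr 3
  rcases le_total (U s - w) 0 with h | h
  · rw [max_eq_right h, sqrt_eq_zero'.2 h, sqrt_zero]
  · rw [max_eq_left h]

theorem kern_mono {s : ℝ} (hs : 0 < s) : Monotone (fun r => s - s ^ 2 / max r s) := by
  intro r r' h
  refine sub_le_sub_left ?_ _
  exact div_le_div_of_nonneg_left (sq_nonneg s) (hs.trans_le (le_max_right _ _))
    (max_le_max_right _ h)

/-- The Volterra operator. -/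
noncomputable def T (η : ℝ) : (ℝ →o ℝ≥0∞) →o (ℝ →o ℝ≥0∞) where
  toFun w :=
    { toFun := fun r => ENNReal.ofReal η +
        ∫⁻ s in Ioi (0 : ℝ), G s (w s) * ENNReal.ofReal (s - s ^ 2 / max r s)
      monotone' := by
        intro r r' h
        refine add_le_add le_rfl (setLIntegral_mono' measurableSet_Ioi (fun s hs => ?_))
        exact mul_le_mul' le_rfl (ENNReal.ofReal_le_ofReal (kern_mono hs h)) }
  monotone' := by
    intro w w' h r
    refine add_le_add le_rfl (lintegral_mono (fun s => ?_))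
    exact mul_le_mul' (G_mono s (h s)) le_rfl

/-- The barrier. -/
noncomputable def bar (η : ℝ) (hη : 0 ≤ η) : ℝ →o ℝ≥0∞ where
  toFun r := ENNReal.ofReal (η * exp (16 * max r 0 ^ 2))
  monotone' := by
    intro r r' h
    refine ENNReal.ofReal_le_ofReal (mul_le_mul_of_nonneg_left (exp_le_exp.2 ?_) hη)
    exact mul_le_mul_of_nonneg_left
      (pow_le_pow_left₀ (le_max_right _ _) (max_le_max_right _ h) 2) (by norm_num)

theorem T_bar (η : ℝ) (hη : 0 ≤ η) : T η (bar η hη) ≤ bar η hη := by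
  intro r
  change ENNReal.ofReal η + ∫⁻ s in Ioi (0 : ℝ),
    G s (ENNReal.ofReal (η * exp (16 * max s 0 ^ 2))) * ENNReal.ofReal (s - s ^ 2 / max r s) ≤
    ENNReal.ofReal (η * exp (16 * max r 0 ^ 2))
  have hr : 0 ≤ max r 0 := le_max_right _ _
  have hr' : r ≤ max r 0 := le_max_left _ _
  generalize max r 0 = R at hr hr' ⊢
  rw [split2 hr, lint_congr_Ioi (a := R) (G := fun _ => 0), lintegral_zero, add_zero]
  · have h1 : ∫⁻ s in Ioc (0 : ℝ) R, G s (ENNReal.ofReal (η * exp (16 * max s 0 ^ 2))) *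
        ENNReal.ofReal (s - s ^ 2 / max r s) ≤
        ∫⁻ s in Ioc (0 : ℝ) R, ENNReal.ofReal (η * (exp (16 * s ^ 2) * (32 * s))) := by
      refine setLIntegral_mono' measurableSet_Ioc (fun s hs => ?_)
      have hs0 : 0 < s := hs.1
      have hw : 0 ≤ η * exp (16 * s ^ 2) := by positivity
      rw [max_eq_left hs0.le, G_ofReal s hw, ← ENNReal.ofReal_mul (Hh_nonneg s hw)]
      refine ENNReal.ofReal_le_ofReal ?_
      have h2 := Hh_le hs0.le hw
      have h3 := Hh_nonneg s hw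
      have h4 : 0 ≤ s ^ 2 / max r s := div_nonneg (sq_nonneg s) (hs0.le.trans (le_max_right _ _))
      nlinarith
    rw [lint_Ioc hr (F := fun s => η * exp (16 * s ^ 2)) (fun s _ => ?_) (by fun_prop)
      (fun s hs => by have := hs.1; positivity)] at h1
    · refine (add_le_add le_rfl h1).trans (le_of_eq ?_)
      have h5 : 1 ≤ exp (16 * R ^ 2) := one_le_exp (by positivity)
      rw [← ENNReal.ofReal_add hη (by simp only [ne_eq, OfNat.ofNat_ne_zero, not_false_eq_true,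
        zero_pow, mul_zero, exp_zero]; nlinarith)]
      congr 1
      simp
    · have h := (((hasDerivAt_pow 2 s).const_mul 16).exp).const_mul η
      refine h.congr_deriv ?_
      norm_num only
      ring
  · intro s hs
    have hs0 : 0 < s := hr.trans_lt hs
    have : s - s ^ 2 / max r s = 0 := by
      rw [max_eq_right (hr'.trans hs.le)]
      field_simp
      ring
    rw [this]
    simp

theorem exists_w : ∃ (w : ℝ → ℝ) (η : ℝ), 0 < η ∧ Monotone w ∧ (∀ r, η ≤ w r) ∧ w 3 ≤ 1 ∧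
    ∀ r, ENNReal.ofReal (w r) = ENNReal.ofReal η +
      ∫⁻ s in Ioi (0 : ℝ), ENNReal.ofReal (Hh s (w s)) * ENNReal.ofReal (s - s ^ 2 / max r s) := by
  have hη : 0 < exp (-144) := exp_pos _
  generalize hE : exp (-144) = η at hη
  have h1 : (T η).lfp ≤ bar η hη.le := (T η).lfp_le (T_bar η hη.le)
  have h2 : T η (T η).lfp = (T η).lfp := (T η).map_lfp
  generalize (T η).lfp = v at h1 h2
  have h3 : ∀ r, v r ≠ ⊤ := fun r => ne_top_of_le_ne_top ENNReal.ofReal_ne_top (h1 r)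
  have h4 : ∀ r, v r = ENNReal.ofReal η +
      ∫⁻ s in Ioi (0 : ℝ), G s (v s) * ENNReal.ofReal (s - s ^ 2 / max r s) :=
    fun r => (DFunLike.congr_fun h2 r).symm
  refine ⟨fun r => (v r).toReal, η, hη, fun r r' h => ENNReal.toReal_mono (h3 r') (v.monotone h),
    fun r => ?_, ?_, fun r => ?_⟩
  · refine (ENNReal.ofReal_le_iff_le_toReal (h3 r)).1 ?_
    rw [h4 r]
    exact le_self_add
  · refine ENNReal.toReal_le_of_le_ofReal zero_le_one ((h1 3).trans (le_of_eq ?_))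
    change ENNReal.ofReal (η * exp (16 * max 3 0 ^ 2)) = _
    rw [← hE, ← exp_add]
    norm_num
  · simp only
    rw [ENNReal.ofReal_toReal (h3 r), h4 r]
    congr 1
    refine lintegral_congr (fun s => ?_)
    rw [← G_ofReal s ENNReal.toReal_nonneg, ENNReal.ofReal_toReal (h3 s)]

theorem exists_lt {w : ℝ → ℝ} {η : ℝ} (hη : 0 < η) (hw : ∀ r, η ≤ w r) (h3 : w 3 ≤ 1)
    (heq : ENNReal.ofReal (w 3) = ENNReal.ofReal η +
      ∫⁻ s in Ioi (0 : ℝ), ENNReal.ofReal (Hh s (w s)) * ENNReal.ofReal (s - s ^ 2 / max 3 s)) :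
    ∃ t : ℝ, 1 ≤ t ∧ t < 3 ∧ Hh t (w t) < Hh 3 (w 3) := by
  by_contra hcon
  push Not at hcon
  have hw3 : 0 < w 3 := hη.trans_le (hw 3)
  have hH := Hh_three hw3.le h3
  have h1 : ∫⁻ s in Ioc (1 : ℝ) 3, ENNReal.ofReal (Hh 3 (w 3) * (s - s ^ 2 / 3)) ≤
      ∫⁻ s in Ioi (0 : ℝ), ENNReal.ofReal (Hh s (w s)) * ENNReal.ofReal (s - s ^ 2 / max 3 s) := by
    refine le_trans ?_ (lintegral_mono_set (fun s (hs : s ∈ Ioc (1 : ℝ) 3) =>
      (show s ∈ Ioi (0 : ℝ) from lt_trans one_pos hs.1)))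
    refine setLIntegral_mono' measurableSet_Ioc (fun s hs => ?_)
    rw [max_eq_left hs.2, ENNReal.ofReal_mul (by linarith)]
    refine mul_le_mul' (ENNReal.ofReal_le_ofReal ?_) le_rfl
    rcases eq_or_lt_of_le hs.2 with h | h
    · rw [h]
    · exact hcon s hs.1.le h
  rw [lint_Ioc (by norm_num) (F := fun s => Hh 3 (w 3) * (s ^ 2 / 2 - s ^ 3 / 9)) (fun s _ => ?_)
    (by fun_prop) (fun s hs => mul_nonneg (by linarith) (by nlinarith [hs.1, hs.2]))] at h1
  · have h2 := (le_add_self.trans (add_le_add (le_refl (ENNReal.ofReal η)) h1)).trans heq.ge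
    rw [ENNReal.ofReal_le_ofReal_iff hw3.le] at h2
    norm_num at h2
    linarith
  · have h := (((hasDerivAt_pow 2 s).div_const 2).sub
      ((hasDerivAt_pow 3 s).div_const 9)).const_mul (Hh 3 (w 3))
    refine h.congr_deriv ?_
    norm_num only
    ring

end Pool.Agent.P.MP_d10cfe_mp
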