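import Pool.Agent.P.MP_d10cfe_mp.Fixed

set_option autoImplicit false

namespace Pool.Agent.P.MP_d10cfe_mp

open MeasureTheory Set Real Filter Topology
open scoped ENNReal

/-- The (rescaled) density of the neutral atom. -/
noncomputable def ff (s : ℝ) : ℝ := √(U s) ^ 3

/-- The part of `ff` inside of the nucleus. -/
noncomputable def fIn (s : ℝ) : ℝ := if s ≤ 1 then ff s else 0

theorem measurable_ff : Measurable ff := by
  have := measurable_U
  unfold ff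
  fun_prop

theorem measurable_fIn : Measurable fIn :=
  Measurable.ite measurableSet_Iic measurable_ff measurable_const

theorem ff_nonneg (s : ℝ) : 0 ≤ ff s := by
  unfold ff
  positivity

theorem fIn_nonneg (s : ℝ) : 0 ≤ fIn s := by
  unfold fIn
  split_ifs
  · exact ff_nonneg s
  · exact le_rfl

theorem ff_out {s : ℝ} (h : ¬s ≤ 1) : ff s = 1728 * s⁻¹ ^ 6 := by
  rw [ff, U, if_neg h, show 144 * s⁻¹ ^ 4 = (12 * s⁻¹ ^ 2) ^ 2 by ring, sqrt_sq (by positivity)]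
  ring

theorem ff_split (s : ℝ) : ff s = fIn s + fOut s := by
  unfold fIn fOut
  split_ifs with h
  · simp
  · rw [ff_out h, zero_add]

theorem ff_bound {s : ℝ} (hs : 0 ≤ s) : ff s * (1 + s) ^ 4 ≤ 200000 := by
  by_cases h : s ≤ 1
  · have h1 : √(U s) ≤ 21 := by
      rw [sqrt_le_left (by norm_num)]
      linarith [U_le s]
    have h2 : ff s ≤ 21 ^ 3 := pow_le_pow_left₀ (sqrt_nonneg _) h1 3
    have h3 : (1 + s) ^ 4 ≤ 2 ^ 4 := pow_le_pow_left₀ (by linarith) (by linarith) 4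
    calc ff s * (1 + s) ^ 4 ≤ 21 ^ 3 * 2 ^ 4 :=
          mul_le_mul h2 h3 (by positivity) (by positivity)
      _ ≤ 200000 := by norm_num
  · have h1 : 1 ≤ s := (not_le.1 h).le
    have h2 : s⁻¹ ≤ 1 := inv_le_one_of_one_le₀ h1
    have h3 : 0 ≤ s⁻¹ := by positivity
    have h4 : s⁻¹ * (1 + s) ≤ 2 := by
      rw [mul_add, inv_mul_cancel₀ (by linarith)]
      linarith
    have h5 : (s⁻¹ * (1 + s)) ^ 4 ≤ 2 ^ 4 := pow_le_pow_left₀ (by positivity) h4 4
    have h6 : s⁻¹ ^ 2 ≤ 1 := pow_le_one₀ h3 h2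
    rw [ff_out h, show 1728 * s⁻¹ ^ 6 * (1 + s) ^ 4 =
      1728 * (s⁻¹ ^ 2 * (s⁻¹ * (1 + s)) ^ 4) by ring]
    have h7 : s⁻¹ ^ 2 * (s⁻¹ * (1 + s)) ^ 4 ≤ 1 * 2 ^ 4 :=
      mul_le_mul h6 h5 (by positivity) (by positivity)
    linarith

theorem eIn_bound {s : ℝ} (hs : 0 ≤ s) : eIn s * (1 + s) ^ 4 ≤ 200000 := by
  unfold eIn
  split_ifs with h
  · have h3 : (1 + s) ^ 4 ≤ 2 ^ 4 := pow_le_pow_left₀ (by linarith) (by linarith) 4
    linarith
  · norm_num

theorem adm {g : ℝ → ℝ} (hg : Measurable g) (h0 : ∀ s, 0 ≤ g s) (hle : ∀ s, g s ≤ ff s + eIn s)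
    {c : ℝ} (hc : 0 ≤ c) : AdmissibleDensity (fun y : E3 => c * g ‖y‖) := by
  refine admissible_of_le (C := c * 400000) (by fun_prop) (fun y => mul_nonneg hc (h0 _))
    (fun y => ?_)
  rw [mul_assoc]
  refine mul_le_mul_of_nonneg_left ?_ hc
  have h1 := ff_bound (norm_nonneg y)
  have h2 := eIn_bound (norm_nonneg y)
  have h3 : g ‖y‖ * (1 + ‖y‖) ^ 4 ≤ (ff ‖y‖ + eIn ‖y‖) * (1 + ‖y‖) ^ 4 :=
    mul_le_mul_of_nonneg_right (hle _) (by positivity)
  linarith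

theorem Kl_diff {r : ℝ} (hr : 0 ≤ r) : (Kl eIn r).toReal - (Kl fOut r).toReal = U r := by
  unfold U
  split_ifs with h
  · rw [Kl_eIn_le hr h, Kl_fOut_le h, ENNReal.toReal_ofReal (by nlinarith),
      ENNReal.toReal_ofReal (by norm_num)]
    ring
  · have h1 : 1 ≤ r := (not_le.1 h).le
    have h2 : r⁻¹ ≤ 1 := inv_le_one_of_one_le₀ h1
    have h3 : 0 ≤ r⁻¹ := by positivity
    have h4 : r⁻¹ ^ 3 ≤ 1 := pow_le_one₀ h3 h2
    rw [Kl_eIn_ge h1, Kl_fOut_ge h1, ENNReal.toReal_ofReal (by positivity),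
      ENNReal.toReal_ofReal (by nlinarith)]
    ring

theorem tf_pt {γ : ℝ} (hγ : 0 < γ) (u : ℝ) :
    γ * ((γ / (4 * π)) ^ 3 * √u ^ 3) ^ (2 / 3 : ℝ) = max (4 * π * (γ / (4 * π)) ^ 3 * u) 0 := by
  have hp := pi_pos
  have h1 : 0 ≤ γ / (4 * π) * √u := by positivity
  rw [← mul_pow, ← rpow_natCast, ← rpow_mul h1,
    show ((3 : ℕ) : ℝ) * (2 / 3 : ℝ) = ((2 : ℕ) : ℝ) by norm_num, rpow_natCast, mul_pow, sq_sqrt']
  have h2 : γ * (γ / (4 * π)) ^ 2 = 4 * π * (γ / (4 * π)) ^ 3 := by field_simp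
  rw [← mul_assoc, h2, mul_max_of_nonneg _ _ (by positivity), mul_zero]

theorem Kl_zero {g : ℝ → ℝ} (hg : Measurable g) (r : ℝ) :
    Kl g 0 = Kl g r + ∫⁻ s in Ioi (0 : ℝ), ENNReal.ofReal (g s) *
      ENNReal.ofReal (s - s ^ 2 / max r s) := by
  unfold Kl
  rw [← lintegral_add_left (by fun_prop)]
  refine lint_congr_Ioi (fun s hs => ?_)
  have h1 : 0 < max r s := hs.trans_le (le_max_right _ _)
  have h2 : s ^ 2 / max r s ≤ s := by
    rw [div_le_iff₀ h1, sq]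
    exact mul_le_mul_of_nonneg_left (le_max_right _ _) hs.le
  rw [← mul_add, ← ENNReal.ofReal_add (by positivity) (by linarith), max_eq_right hs.le]
  congr 2
  field_simp
  ring

theorem main (γ : ℝ) (hγ : 0 < γ) :
    ∃ q : EuclideanSpace ℝ (Fin 3) → ℝ, AdmissibleDensity q ∧ (∀ y, 1 < ‖y‖ → q y = 0) ∧
      ∃ lam' lam : ℝ, 0 < lam' ∧ lam' < lam ∧ lam ≤ ∫ y, q y ∧
        ∃ ρ' ρ : EuclideanSpace ℝ (Fin 3) → ℝ,
          (∀ σ, IsTFDensity γ (coulombPot q) lam' σ ↔ σ = ρ') ∧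
          (∀ σ, IsTFDensity γ (coulombPot q) lam σ ↔ σ = ρ) ∧
          ∃ a t : ℝ, 1 < a ∧ t < a ∧
            ρ (EuclideanSpace.single 0 t) - ρ (EuclideanSpace.single 0 (2 * a - t)) <
              ρ' (EuclideanSpace.single 0 t) - ρ' (EuclideanSpace.single 0 (2 * a - t)) := by
  obtain ⟨w, η, hη, hwm, hw, hw3, heq⟩ := exists_w
  obtain ⟨t, ht1, ht3, hlt⟩ := exists_lt hη hw hw3 (heq 3)
  have hp := pi_pos
  have hTF := tf_pt hγ
  have hc : 0 < (γ / (4 * π)) ^ 3 := by positivity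
  generalize (γ / (4 * π)) ^ 3 = c at hTF hc
  have hw0 : ∀ s, 0 < w s := fun s => hη.trans_le (hw s)
  have mw : Measurable w := hwm.measurable
  have mU := measurable_U
  have mf := measurable_ff
  have mi := measurable_fIn
  have mo := measurable_fOut
  have me := measurable_eIn
  have mh : Measurable (fun s => Hh s (w s)) := by
    unfold Hh
    fun_prop
  have m1 : Measurable (fun s => √(U s - w s) ^ 3) := by fun_prop
  have hh0 : ∀ s, 0 ≤ Hh s (w s) := fun s => Hh_nonneg s (hw0 s).le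
  have h10 : ∀ s, 0 ≤ √(U s - w s) ^ 3 := fun s => by positivity
  have hsum : ∀ s, ff s = √(U s - w s) ^ 3 + Hh s (w s) := fun s => by
    unfold ff Hh
    ring
  have aq : AdmissibleDensity (fun y : E3 => c * (fIn ‖y‖ + eIn ‖y‖)) :=
    adm (g := fun s => fIn s + eIn s) (by fun_prop)
      (fun s => add_nonneg (fIn_nonneg s) (eIn_nonneg s))
      (fun s => by linarith [ff_split s, fOut_nonneg s]) hc.le
  have af : AdmissibleDensity (fun y : E3 => c * ff ‖y‖) :=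
    adm mf ff_nonneg (fun s => by linarith [eIn_nonneg s]) hc.le
  have ai : AdmissibleDensity (fun y : E3 => c * fIn ‖y‖) :=
    adm mi fIn_nonneg (fun s => by linarith [eIn_nonneg s, ff_split s, fOut_nonneg s]) hc.le
  have ao : AdmissibleDensity (fun y : E3 => c * fOut ‖y‖) :=
    adm mo fOut_nonneg (fun s => by linarith [eIn_nonneg s, ff_split s, fIn_nonneg s]) hc.le
  have ae : AdmissibleDensity (fun y : E3 => c * eIn ‖y‖) :=
    adm me eIn_nonneg (fun s => by linarith [ff_nonneg s]) hc.le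
  have a1 : AdmissibleDensity (fun y : E3 => c * √(U ‖y‖ - w ‖y‖) ^ 3) :=
    adm m1 h10 (fun s => by linarith [eIn_nonneg s, hsum s, hh0 s]) hc.le
  have ah : ∀ {d : ℝ}, 0 ≤ d → AdmissibleDensity (fun y : E3 => d * Hh ‖y‖ (w ‖y‖)) :=
    fun hd => adm mh hh0 (fun s => by linarith [eIn_nonneg s, hsum s, h10 s]) hd
  have eq_q : (fun y : E3 => c * (fIn ‖y‖ + eIn ‖y‖)) =
      fun y : E3 => c * fIn ‖y‖ + c * eIn ‖y‖ := funext (fun y => mul_add _ _ _)
  have eq_f : (fun y : E3 => c * ff ‖y‖) = fun y : E3 => c * fIn ‖y‖ + c * fOut ‖y‖ :=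
    funext (fun y => by rw [ff_split, mul_add])
  have eq_1 : (fun y : E3 => c * ff ‖y‖) =
      fun y : E3 => c * √(U ‖y‖ - w ‖y‖) ^ 3 + c * Hh ‖y‖ (w ‖y‖) :=
    funext (fun y => by rw [hsum, mul_add])
  have pot2 : ∀ x, coulombPot (fun y : E3 => c * (fIn ‖y‖ + eIn ‖y‖)) x -
      coulombPot (fun y : E3 => c * ff ‖y‖) x = 4 * π * c * U ‖x‖ := by
    intro x
    rw [eq_q, eq_f, coulombPot_add ai ae, coulombPot_add ai ao, pot_radial me eIn_nonneg hc.le,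
      pot_radial mo fOut_nonneg hc.le, ← Kl_diff (norm_nonneg x)]
    ring
  have hKl : ∀ x : E3, Kl (fun s => Hh s (w s)) ‖x‖ ≠ ⊤ := by
    intro x
    refine Kl_ne_top mh ?_ x
    simpa using ah zero_le_one
  have hK0 : ∀ x : E3, (Kl (fun s => Hh s (w s)) 0).toReal + η =
      (Kl (fun s => Hh s (w s)) ‖x‖).toReal + w ‖x‖ := by
    intro x
    have h0 : Kl (fun s => Hh s (w s)) 0 ≠ ⊤ := by simpa using hKl 0
    have h1 : Kl (fun s => Hh s (w s)) 0 + ENNReal.ofReal η =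
        Kl (fun s => Hh s (w s)) ‖x‖ + ENNReal.ofReal (w ‖x‖) := by
      rw [Kl_zero mh ‖x‖, heq ‖x‖]
      ring
    have h2 := congrArg ENNReal.toReal h1
    rwa [ENNReal.toReal_add h0 ENNReal.ofReal_ne_top,
      ENNReal.toReal_add (hKl x) ENNReal.ofReal_ne_top, ENNReal.toReal_ofReal hη.le,
      ENNReal.toReal_ofReal (hw0 _).le] at h2
  have pot1 : ∀ x, coulombPot (fun y : E3 => c * (fIn ‖y‖ + eIn ‖y‖)) x -
      coulombPot (fun y : E3 => c * √(U ‖y‖ - w ‖y‖) ^ 3) x -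
      4 * π * c * ((Kl (fun s => Hh s (w s)) 0).toReal + η) = 4 * π * c * (U ‖x‖ - w ‖x‖) := by
    intro x
    have h1 := pot2 x
    rw [eq_1, coulombPot_add a1 (ah hc.le), pot_radial mh hh0 hc.le] at h1
    rw [hK0 x]
    linarith
  obtain ⟨M, hM⟩ := aq.pot_bound
  have l1 : 0 < ∫ y : E3, c * √(U ‖y‖ - w ‖y‖) ^ 3 := by
    rw [integral_pos_iff_support_of_nonneg a1.2.1 a1.2.2.1]
    refine lt_of_lt_of_le (Metric.measure_ball_pos volume (0 : E3) one_pos) (measure_mono ?_)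
    intro y hy
    have h1 : ‖y‖ < 1 := by simpa using hy
    have h2 : w ‖y‖ ≤ 1 := (hwm (by linarith)).trans hw3
    have h3 := U_gt_one (norm_nonneg y) h1.le
    have h4 : 0 < √(U ‖y‖ - w ‖y‖) := sqrt_pos.2 (by linarith)
    exact (mul_pos hc (pow_pos h4 3)).ne'
  have l2 : ∫ y : E3, c * √(U ‖y‖ - w ‖y‖) ^ 3 < ∫ y : E3, c * ff ‖y‖ := by
    rw [eq_1, integral_add a1.2.2.1 (ah hc.le).2.2.1]
    refine lt_add_of_pos_right _ ?_
    rw [integral_pos_iff_support_of_nonneg (ah hc.le).2.1 (ah hc.le).2.2.1]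
    refine lt_of_lt_of_le (Metric.measure_ball_pos volume (0 : E3) one_pos) (measure_mono ?_)
    intro y _
    exact (mul_pos hc (Hh_pos (norm_nonneg y) (hw0 _))).ne'
  have l3 : ∫ y : E3, c * ff ‖y‖ ≤ ∫ y : E3, c * (fIn ‖y‖ + eIn ‖y‖) := by
    rw [eq_q, eq_f, integral_add ai.2.2.1 ae.2.2.1, integral_add ai.2.2.1 ao.2.2.1,
      mass_radial me eIn_nonneg, mass_radial mo fOut_nonneg, mass_eIn, mass_fOut]
  refine ⟨fun y => c * (fIn ‖y‖ + eIn ‖y‖), aq, fun y hy => ?_, _, _, l1, l2, l3,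
    fun y => c * √(U ‖y‖ - w ‖y‖) ^ 3, fun y => c * ff ‖y‖, ?_, ?_, (t + 3) / 2, t,
    by linarith, by linarith, ?_⟩
  · simp [fIn, eIn, not_le.2 hy]
  · refine isTFDensity_iff (μ := 4 * π * c * ((Kl (fun s => Hh s (w s)) 0).toReal + η)) hγ
      aq.measurable_pot hM a1 rfl l1 (by positivity) (fun x => ?_)
    rw [pot1 x]
    exact hTF _
  · refine isTFDensity_iff (μ := 0) hγ aq.measurable_pot hM af rfl (l1.trans l2) le_rfl
      (fun x => ?_)
    rw [sub_zero, pot2 x]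
    exact hTF _
  · have n1 : ‖(EuclideanSpace.single 0 t : E3)‖ = t := by
      simp only [PiLp.norm_single, Real.norm_eq_abs]
      exact abs_of_nonneg (by linarith)
    have n2 : ‖(EuclideanSpace.single 0 (2 * ((t + 3) / 2) - t) : E3)‖ = 3 := by
      rw [show 2 * ((t + 3) / 2) - t = 3 by ring]
      simp
    simp only [n1, n2]
    rw [hsum t, hsum 3]
    nlinarith [mul_lt_mul_of_pos_left hlt hc]

end Pool.Agent.P.MP_d10cfe_mp
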