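import Pool.Agent.P.MP_d10cfe_mp.Coulomb
import Pool.Agent.P.MP_d10cfe_mp.Defs

set_option autoImplicit false

namespace Pool.Agent.P.MP_d10cfe_mp

open MeasureTheory Set Real
open scoped ENNReal

theorem ofReal_div_norm {s : ℝ} (hs : 0 ≤ s) (v : E3) :
    ENNReal.ofReal (s / ‖v‖) = ENNReal.ofReal s * ENNReal.ofReal (‖v‖⁻¹) := by
  rw [div_eq_mul_inv, ENNReal.ofReal_mul hs]

theorem coulombPot_eq {ρ : E3 → ℝ} (hm : Measurable ρ) (h0 : ∀ x, 0 ≤ ρ x) (x : E3) :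
    coulombPot ρ x = (cP (fun y => ENNReal.ofReal (ρ y)) x).toReal := by
  unfold coulombPot cP
  rw [integral_eq_lintegral_of_nonneg_ae
    (Filter.Eventually.of_forall (fun y => div_nonneg (h0 y) (norm_nonneg _)))
    (Measurable.aestronglyMeasurable (by fun_prop))]
  congr 1
  exact lintegral_congr (fun y => ofReal_div_norm (h0 y) _)

namespace AdmissibleDensity

variable {ρ σ : E3 → ℝ}

theorem cP_lt_top (h : AdmissibleDensity ρ) (x : E3) :
    cP (fun y => ENNReal.ofReal (ρ y)) x < ⊤ := by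
  obtain ⟨C, hC, hb⟩ := cP_bound h.1 h.2.1 h.2.2.1 h.2.2.2
  exact lt_of_le_of_lt (hb x) hC

theorem integrable_div (h : AdmissibleDensity ρ) (x : E3) :
    Integrable (fun y => ρ y / ‖x - y‖) := by
  have hm := h.1
  refine ⟨Measurable.aestronglyMeasurable (by fun_prop), ?_⟩
  rw [hasFiniteIntegral_iff_ofReal
    (Filter.Eventually.of_forall (fun y => div_nonneg (h.2.1 y) (norm_nonneg _)))]
  rw [lintegral_congr (fun y => ofReal_div_norm (h.2.1 y) _)]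
  exact h.cP_lt_top x

theorem measurable_pot (h : AdmissibleDensity ρ) : Measurable (coulombPot ρ) := by
  have hm := h.1
  have : coulombPot ρ = fun x => (cP (fun y => ENNReal.ofReal (ρ y)) x).toReal :=
    funext (coulombPot_eq h.1 h.2.1)
  rw [this]
  exact (measurable_cP (by fun_prop)).ennreal_toReal

theorem pot_bound (h : AdmissibleDensity ρ) : ∃ M : ℝ, ∀ x, ‖coulombPot ρ x‖ ≤ M := by
  obtain ⟨C, hC, hb⟩ := cP_bound h.1 h.2.1 h.2.2.1 h.2.2.2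
  refine ⟨C.toReal, fun x => ?_⟩
  rw [coulombPot_eq h.1 h.2.1, Real.norm_eq_abs, abs_of_nonneg ENNReal.toReal_nonneg]
  exact ENNReal.toReal_mono hC.ne (hb x)

theorem integrable_mul_pot (h : AdmissibleDensity ρ) (h' : AdmissibleDensity σ) :
    Integrable (fun x => ρ x * coulombPot σ x) := by
  obtain ⟨M, hM⟩ := h'.pot_bound
  exact h.2.2.1.mul_bdd h'.measurable_pot.aestronglyMeasurable (Filter.Eventually.of_forall hM)

theorem ofReal_B (h : AdmissibleDensity ρ) (h' : AdmissibleDensity σ) :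
    ENNReal.ofReal (∫ x, ρ x * coulombPot σ x) =
      ∫⁻ x, ENNReal.ofReal (ρ x) * cP (fun y => ENNReal.ofReal (σ y)) x := by
  rw [ofReal_integral_eq_lintegral_ofReal (h.integrable_mul_pot h')
    (Filter.Eventually.of_forall (fun x => mul_nonneg (h.2.1 x) (by
      rw [coulombPot_eq h'.1 h'.2.1]
      exact ENNReal.toReal_nonneg)))]
  refine lintegral_congr (fun x => ?_)
  rw [ENNReal.ofReal_mul (h.2.1 x), coulombPot_eq h'.1 h'.2.1,
    ENNReal.ofReal_toReal (h'.cP_lt_top x).ne]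

theorem B_nonneg (h : AdmissibleDensity ρ) (h' : AdmissibleDensity σ) :
    0 ≤ ∫ x, ρ x * coulombPot σ x :=
  integral_nonneg (fun x => mul_nonneg (h.2.1 x) (by
    rw [coulombPot_eq h'.1 h'.2.1]
    exact ENNReal.toReal_nonneg))

theorem B_le (h : AdmissibleDensity ρ) (h' : AdmissibleDensity σ) :
    2 * ∫ x, ρ x * coulombPot σ x ≤
      (∫ x, ρ x * coulombPot ρ x) + ∫ x, σ x * coulombPot σ x := by
  have hm := h.1
  have hm' := h'.1
  have h1 := coulomb_pos_def (f := fun y => ENNReal.ofReal (ρ y))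
    (g := fun y => ENNReal.ofReal (σ y)) (by fun_prop) (by fun_prop)
  have h2 : ∀ X : ℝ, (2 : ℝ≥0∞) * ENNReal.ofReal X = ENNReal.ofReal (2 * X) := by
    intro X
    rw [ENNReal.ofReal_mul (by norm_num)]
    simp
  rw [← h.ofReal_B h', ← h.ofReal_B h, ← h'.ofReal_B h',
    ← ENNReal.ofReal_add (h.B_nonneg h) (h'.B_nonneg h'), h2] at h1
  exact (ENNReal.ofReal_le_ofReal_iff (add_nonneg (h.B_nonneg h) (h'.B_nonneg h'))).1 h1

end AdmissibleDensity

theorem convex_pt {γ s t a : ℝ} (hγ : 0 < γ) (hs : 0 ≤ s) (ht : 0 ≤ t)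
    (ha : γ * t ^ (2 / 3 : ℝ) = max a 0) :
    0 ≤ 3 / 5 * γ * s ^ (5 / 3 : ℝ) - 3 / 5 * γ * t ^ (5 / 3 : ℝ) - a * (s - t) ∧
    (3 / 5 * γ * s ^ (5 / 3 : ℝ) - 3 / 5 * γ * t ^ (5 / 3 : ℝ) - a * (s - t) = 0 → s = t) := by
  obtain ⟨u, hu, rfl⟩ : ∃ u : ℝ, 0 ≤ u ∧ s = u ^ 3 :=
    ⟨s ^ (1 / 3 : ℝ), by positivity, by rw [← rpow_natCast, ← rpow_mul hs]; norm_num⟩
  obtain ⟨v, hv, rfl⟩ : ∃ v : ℝ, 0 ≤ v ∧ t = v ^ 3 :=
    ⟨t ^ (1 / 3 : ℝ), by positivity, by rw [← rpow_natCast, ← rpow_mul ht]; norm_num⟩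
  have e5 : ∀ w : ℝ, 0 ≤ w → (w ^ 3) ^ (5 / 3 : ℝ) = w ^ 5 := by
    intro w hw
    rw [← rpow_natCast, ← rpow_mul hw, ← rpow_natCast]
    norm_num
  have e2 : (v ^ 3) ^ (2 / 3 : ℝ) = v ^ 2 := by
    rw [← rpow_natCast, ← rpow_mul hv, ← rpow_natCast]
    norm_num
  rw [e2] at ha
  rw [e5 u hu, e5 v hv]
  have h1 : 0 ≤ (γ * v ^ 2 - a) * (u ^ 3 - v ^ 3) := by
    rcases le_total 0 a with h | h
    · rw [ha, max_eq_left h]
      simp
    · rw [max_eq_right h] at ha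
      have hv0 : v = 0 := by
        have : v ^ 2 = 0 := by
          rcases mul_eq_zero.1 ha with h' | h'
          · exact absurd h' hγ.ne'
          · exact h'
        exact pow_eq_zero_iff (by norm_num) |>.1 this
      subst hv0
      have : 0 ≤ u ^ 3 := by positivity
      nlinarith
  have hP : 0 ≤ 3 * u ^ 3 + 6 * u ^ 2 * v + 4 * u * v ^ 2 + 2 * v ^ 3 := by positivity
  have h2 : 3 / 5 * γ * u ^ 5 - 3 / 5 * γ * v ^ 5 - a * (u ^ 3 - v ^ 3) =
      γ / 5 * ((u - v) ^ 2 * (3 * u ^ 3 + 6 * u ^ 2 * v + 4 * u * v ^ 2 + 2 * v ^ 3)) +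
      (γ * v ^ 2 - a) * (u ^ 3 - v ^ 3) := by ring
  have h3 : 0 ≤ γ / 5 * ((u - v) ^ 2 *
      (3 * u ^ 3 + 6 * u ^ 2 * v + 4 * u * v ^ 2 + 2 * v ^ 3)) := by positivity
  rw [h2]
  refine ⟨by linarith, fun h => ?_⟩
  have h4 : γ / 5 * ((u - v) ^ 2 *
      (3 * u ^ 3 + 6 * u ^ 2 * v + 4 * u * v ^ 2 + 2 * v ^ 3)) = 0 := by linarith
  rcases mul_eq_zero.1 h4 with h5 | h5
  · exact absurd h5 (by positivity)
  rcases mul_eq_zero.1 h5 with h6 | h6
  · have : u - v = 0 := pow_eq_zero_iff (by norm_num) |>.1 h6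
    rw [sub_eq_zero.1 this]
  · have h7 : 0 ≤ 6 * u ^ 2 * v := by positivity
    have h8 : 0 ≤ 4 * u * v ^ 2 := by positivity
    have h9 : 0 ≤ u ^ 3 := by positivity
    have h10 : 0 ≤ v ^ 3 := by positivity
    linarith

theorem energy_gap {γ μ : ℝ} {V ρ σ : E3 → ℝ} (hVm : Measurable V) {M : ℝ} (hV : ∀ x, ‖V x‖ ≤ M)
    (hρ : AdmissibleDensity ρ) (hσ : AdmissibleDensity σ) (hint : ∫ x, σ x = ∫ x, ρ x) :
    Integrable (fun x => 3 / 5 * γ * σ x ^ (5 / 3 : ℝ) - 3 / 5 * γ * ρ x ^ (5 / 3 : ℝ) -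
      (V x - coulombPot ρ x - μ) * (σ x - ρ x)) ∧
    ∫ x, (3 / 5 * γ * σ x ^ (5 / 3 : ℝ) - 3 / 5 * γ * ρ x ^ (5 / 3 : ℝ) -
      (V x - coulombPot ρ x - μ) * (σ x - ρ x)) ≤ tfEnergy γ V σ - tfEnergy γ V ρ := by
  have i1 := hσ.2.2.2.const_mul (3 / 5 * γ)
  have i2 := hρ.2.2.2.const_mul (3 / 5 * γ)
  have i3 : Integrable (fun x => V x * σ x) :=
    hσ.2.2.1.bdd_mul hVm.aestronglyMeasurable (Filter.Eventually.of_forall hV)
  have i4 : Integrable (fun x => V x * ρ x) :=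
    hρ.2.2.1.bdd_mul hVm.aestronglyMeasurable (Filter.Eventually.of_forall hV)
  have i5 := hσ.integrable_mul_pot hρ
  have i6 := hρ.integrable_mul_pot hρ
  have i7 := hσ.2.2.1.const_mul μ
  have i8 := hρ.2.2.1.const_mul μ
  have e : (fun x => 3 / 5 * γ * σ x ^ (5 / 3 : ℝ) - 3 / 5 * γ * ρ x ^ (5 / 3 : ℝ) -
      (V x - coulombPot ρ x - μ) * (σ x - ρ x)) = fun x =>
      ((3 / 5 * γ * σ x ^ (5 / 3 : ℝ) - 3 / 5 * γ * ρ x ^ (5 / 3 : ℝ)) -
        (V x * σ x - V x * ρ x)) + ((σ x * coulombPot ρ x - ρ x * coulombPot ρ x) +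
          (μ * σ x - μ * ρ x)) := by
    funext x
    ring
  have j1 : Integrable (fun x => 3 / 5 * γ * σ x ^ (5 / 3 : ℝ) - 3 / 5 * γ * ρ x ^ (5 / 3 : ℝ)) :=
    i1.sub i2
  have j2 : Integrable (fun x => V x * σ x - V x * ρ x) := i3.sub i4
  have j3 : Integrable (fun x => σ x * coulombPot ρ x - ρ x * coulombPot ρ x) := i5.sub i6
  have j4 : Integrable (fun x => μ * σ x - μ * ρ x) := i7.sub i8
  have j5 : Integrable (fun x => (3 / 5 * γ * σ x ^ (5 / 3 : ℝ) - 3 / 5 * γ * ρ x ^ (5 / 3 : ℝ)) -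
      (V x * σ x - V x * ρ x)) := j1.sub j2
  have j6 : Integrable (fun x => (σ x * coulombPot ρ x - ρ x * coulombPot ρ x) +
      (μ * σ x - μ * ρ x)) := j3.add j4
  rw [e]
  refine ⟨j5.add j6, ?_⟩
  rw [integral_add j5 j6, integral_sub j1 j2, integral_add j3 j4, integral_sub i1 i2,
    integral_sub i3 i4, integral_sub i5 i6, integral_sub i7 i8]
  simp only [integral_const_mul]
  have hD : ∀ τ : E3 → ℝ, ∫ x, ∫ y, τ x * τ y / ‖x - y‖ = ∫ x, τ x * coulombPot τ x := by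
    intro τ
    refine integral_congr_ae (Filter.Eventually.of_forall (fun x => ?_))
    simp only [coulombPot, mul_div_assoc]
    rw [integral_const_mul]
  unfold tfEnergy
  rw [hD σ, hD ρ, hint]
  have := hσ.B_le hρ
  linarith

/-- A solution of the Thomas-Fermi equation is the unique Thomas-Fermi density of its mass. -/
theorem isTFDensity_iff {γ μ lam : ℝ} {V ρ : E3 → ℝ} (hγ : 0 < γ) (hVm : Measurable V) {M : ℝ}
    (hV : ∀ x, ‖V x‖ ≤ M) (hρ : AdmissibleDensity ρ) (hlam : ∫ x, ρ x = lam) (hpos : 0 < lam)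
    (hμ : 0 ≤ μ) (hTF : ∀ x, γ * ρ x ^ (2 / 3 : ℝ) = max (V x - coulombPot ρ x - μ) 0)
    (σ : E3 → ℝ) : IsTFDensity γ V lam σ ↔ σ = ρ := by
  constructor
  · rintro ⟨hσ, hσl, hmin, μ', -, hTF'⟩
    obtain ⟨hi, hle⟩ := energy_gap (γ := γ) (μ := μ) hVm hV hρ hσ (hσl.trans hlam.symm)
    have h1 := hmin ρ hρ hlam
    have hnn : ∀ x, 0 ≤ 3 / 5 * γ * σ x ^ (5 / 3 : ℝ) - 3 / 5 * γ * ρ x ^ (5 / 3 : ℝ) -
        (V x - coulombPot ρ x - μ) * (σ x - ρ x) :=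
      fun x => (convex_pt hγ (hσ.2.1 x) (hρ.2.1 x) (hTF x)).1
    have h2 := (integral_eq_zero_iff_of_nonneg hnn hi).1
      (le_antisymm (by linarith) (integral_nonneg hnn))
    have h3 : ∀ᵐ x, σ x = ρ x := by
      filter_upwards [h2] with x hx
      exact (convex_pt hγ (hσ.2.1 x) (hρ.2.1 x) (hTF x)).2 hx
    have h4 : ∀ x, coulombPot σ x = coulombPot ρ x := by
      intro x
      refine integral_congr_ae ?_
      filter_upwards [h3] with y hy
      rw [hy]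
    have h5 : ∃ x, σ x = ρ x ∧ ρ x ≠ 0 := by
      by_contra hcon
      push Not at hcon
      have : ∫ x, ρ x = 0 := by
        refine integral_eq_zero_of_ae ?_
        filter_upwards [h3] with x hx
        exact hcon x hx
      linarith
    obtain ⟨x0, hx0, hx0'⟩ := h5
    have hp : 0 < γ * ρ x0 ^ (2 / 3 : ℝ) :=
      mul_pos hγ (rpow_pos_of_pos (lt_of_le_of_ne (hρ.2.1 x0) hx0'.symm) _)
    have h6 := hTF x0
    have h7 := hTF' x0
    rw [hx0, h4] at h7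
    have hμμ : μ' = μ := by
      have a1 : max (V x0 - coulombPot ρ x0 - μ) 0 = V x0 - coulombPot ρ x0 - μ := by
        refine max_eq_left ?_
        by_contra hc
        rw [max_eq_right (not_le.1 hc).le] at h6
        linarith
      have a2 : max (V x0 - coulombPot ρ x0 - μ') 0 = V x0 - coulombPot ρ x0 - μ' := by
        refine max_eq_left ?_
        by_contra hc
        rw [max_eq_right (not_le.1 hc).le] at h7
        linarith
      linarith
    funext x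
    have h8 := hTF' x
    rw [h4, hμμ, ← hTF x] at h8
    have h9 := mul_left_cancel₀ hγ.ne' h8
    exact (rpow_left_inj (hσ.2.1 x) (hρ.2.1 x) (by norm_num)).1 h9
  · rintro rfl
    refine ⟨hρ, hlam, ?_, μ, hμ, hTF⟩
    intro τ hτ hτl
    obtain ⟨-, hle⟩ := energy_gap (γ := γ) (μ := μ) hVm hV hρ hτ (hτl.trans hlam.symm)
    have hnn : ∀ x, 0 ≤ 3 / 5 * γ * τ x ^ (5 / 3 : ℝ) - 3 / 5 * γ * σ x ^ (5 / 3 : ℝ) -
        (V x - coulombPot σ x - μ) * (τ x - σ x) :=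
      fun x => (convex_pt hγ (hτ.2.1 x) (hρ.2.1 x) (hTF x)).1
    have : 0 ≤ ∫ x, (3 / 5 * γ * τ x ^ (5 / 3 : ℝ) - 3 / 5 * γ * σ x ^ (5 / 3 : ℝ) -
        (V x - coulombPot σ x - μ) * (τ x - σ x)) := integral_nonneg hnn
    linarith

end Pool.Agent.P.MP_d10cfe_mp
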