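import Pool.Agent.P.MP_d10cfe_mp.Main

set_option autoImplicit false

namespace Pool.Agent.P.MP_d10cfe_mp.Pt

open MeasureTheory Set Real Filter Topology
open scoped ENNReal

/-- The density as a function of the unknown `y`. -/
noncomputable def ph (z B s : ℝ) (y : ℝ≥0∞) : ℝ≥0∞ :=
  (ENNReal.ofReal (z / s) + y - ENNReal.ofReal B) ^ (3 / 2 : ℝ)

theorem ph_mono {z B B' s : ℝ} {y y' : ℝ≥0∞} (hB : B' ≤ B) (hy : y ≤ y') :
    ph z B s y ≤ ph z B' s y' :=
  ENNReal.rpow_le_rpow (tsub_le_tsub (add_le_add le_rfl hy) (ENNReal.ofReal_le_ofReal hB))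
    (by norm_num)

theorem ofReal_rpow32 (a : ℝ) : ENNReal.ofReal a ^ (3 / 2 : ℝ) = ENNReal.ofReal (√a ^ 3) := by
  rcases le_total a 0 with h | h
  · rw [ENNReal.ofReal_of_nonpos h, sqrt_eq_zero'.2 h, ENNReal.zero_rpow_of_pos (by norm_num)]
    simp
  · rw [ENNReal.ofReal_rpow_of_nonneg h (by norm_num), sqrt_eq_rpow, ← rpow_natCast, ← rpow_mul h]
    norm_num

theorem ph_real {z B s y : ℝ} (hz : 0 ≤ z / s) (hB : 0 ≤ B) (hy : 0 ≤ y) :
    ph z B s (ENNReal.ofReal y) = ENNReal.ofReal (√(z / s - B + y) ^ 3) := by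
  unfold ph
  rw [← ENNReal.ofReal_add hz hy, ← ENNReal.ofReal_sub _ hB, ofReal_rpow32]
  congr 3
  ring

theorem measurable_ph (z B : ℝ) {y : ℝ → ℝ≥0∞} (hy : Measurable y) :
    Measurable fun s => ph z B s (y s) := by
  unfold ph
  fun_prop

theorem kern_le {s : ℝ} (hs : 0 < s) (r : ℝ) : s - s ^ 2 / max r s ≤ s :=
  sub_le_self _ (div_nonneg (sq_nonneg s) (hs.le.trans (le_max_right _ _)))

theorem kern_zero {s r : ℝ} (hs : 0 < s) (h : r ≤ s) : s - s ^ 2 / max r s = 0 := by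
  rw [max_eq_right h]
  field_simp
  ring

/-- The Volterra operator of the initial value problem with slope `-B`. -/
noncomputable def TT (z B : ℝ) : (ℝ →o ℝ≥0∞) →o (ℝ →o ℝ≥0∞) where
  toFun y :=
    { toFun := fun r => ∫⁻ s in Ioi (0 : ℝ), ph z B s (y s) * ENNReal.ofReal (s - s ^ 2 / max r s)
      monotone' := fun _ _ h => setLIntegral_mono' measurableSet_Ioi fun _ hs =>
        mul_le_mul' le_rfl (ENNReal.ofReal_le_ofReal (kern_mono hs h)) }
  monotone' := fun _ _ h _ => lintegral_mono fun s => mul_le_mul' (ph_mono le_rfl (h s)) le_rfl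

noncomputable def Y (z B : ℝ) : ℝ →o ℝ≥0∞ := (TT z B).lfp

theorem Y_eq (z B r : ℝ) : Y z B r =
    ∫⁻ s in Ioi (0 : ℝ), ph z B s (Y z B s) * ENNReal.ofReal (s - s ^ 2 / max r s) :=
  (DFunLike.congr_fun (TT z B).map_lfp r).symm

theorem Y_le {z B : ℝ} (y : ℝ →o ℝ≥0∞) (h : ∀ r, ∫⁻ s in Ioi (0 : ℝ), ph z B s (y s) *
    ENNReal.ofReal (s - s ^ 2 / max r s) ≤ y r) : Y z B ≤ y :=
  (TT z B).lfp_le h

theorem Y_anti {z B B' : ℝ} (h : B ≤ B') : Y z B' ≤ Y z B :=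
  Y_le _ fun r => (lintegral_mono fun _ => mul_le_mul' (ph_mono h le_rfl) le_rfl).trans
    (Y_eq z B r).ge

/-- Slopes for which the solution never turns upwards. -/
def Good (z B : ℝ) : Prop :=
  0 ≤ B ∧ ∫⁻ s in Ioi (0 : ℝ), ph z B s (Y z B s) * ENNReal.ofReal s ≤ ENNReal.ofReal B

theorem good_of {z B : ℝ} (hB : 0 ≤ B) (y : ℝ →o ℝ≥0∞) (h : ∀ r, ∫⁻ s in Ioi (0 : ℝ),
    ph z B s (y s) * ENNReal.ofReal (s - s ^ 2 / max r s) ≤ y r)
    (h' : ∫⁻ s in Ioi (0 : ℝ), ph z B s (y s) * ENNReal.ofReal s ≤ ENNReal.ofReal B) :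
    Good z B :=
  ⟨hB, (lintegral_mono fun s => mul_le_mul' (ph_mono le_rfl (Y_le y h s)) le_rfl).trans h'⟩

theorem Good.up {z B B' : ℝ} (h : Good z B) (hB : B ≤ B') : Good z B' :=
  ⟨h.1.trans hB, ((lintegral_mono fun s => mul_le_mul' (ph_mono hB (Y_anti hB s)) le_rfl).trans
    h.2).trans (ENNReal.ofReal_le_ofReal hB)⟩

theorem Good.le {z B : ℝ} (h : Good z B) (r : ℝ) : Y z B r ≤ ENNReal.ofReal B := by
  rw [Y_eq]
  exact (setLIntegral_mono' measurableSet_Ioi fun s hs =>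
    mul_le_mul' le_rfl (ENNReal.ofReal_le_ofReal (kern_le hs r))).trans h.2

theorem exists_good {z : ℝ} (hz : 0 < z) : ∃ B, Good z B := by
  have hi : IntegrableOn (fun s : ℝ => √z ^ 3 * s ^ (-1 / 2 : ℝ)) (Ioc 0 1) :=
    ((intervalIntegrable_iff_integrableOn_Ioc_of_le zero_le_one).1
      (intervalIntegral.intervalIntegrable_rpow' (by norm_num))).const_mul _
  obtain ⟨c, hc0, hc⟩ : ∃ c : ℝ, 0 ≤ c ∧ ENNReal.ofReal c =
      ∫⁻ s in Ioc (0 : ℝ) 1, ENNReal.ofReal (√z ^ 3 * s ^ (-1 / 2 : ℝ)) :=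
    ⟨_, ENNReal.toReal_nonneg, ENNReal.ofReal_toReal hi.lintegral_lt_top.ne⟩
  have key : ∫⁻ s in Ioi (0 : ℝ), ph z (z + c) s (ENNReal.ofReal c) * ENNReal.ofReal s ≤
      ENNReal.ofReal c := by
    rw [split2 zero_le_one, lint_congr_Ioi (a := 1) (G := fun _ => 0), lintegral_zero, add_zero]
    · refine le_trans (setLIntegral_mono' measurableSet_Ioc fun s hs => ?_) hc.ge
      have hs0 : 0 < s := hs.1
      rw [ph_real (by positivity) (by positivity) hc0, ← ENNReal.ofReal_mul (by positivity)]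
      refine ENNReal.ofReal_le_ofReal ?_
      have h1 : √(z / s - (z + c) + c) ≤ √z / √s := by
        rw [← sqrt_div hz.le]
        exact sqrt_le_sqrt (by linarith)
      have h2 : 0 < √s := sqrt_pos.2 hs0
      calc _ ≤ (√z / √s) ^ 3 * s := by gcongr
        _ = _ := by
          rw [show (-1 / 2 : ℝ) = -(1 / 2) by ring, rpow_neg hs0.le, ← sqrt_eq_rpow]
          nth_rewrite 2 [← sq_sqrt hs0.le]
          field_simp
    · intro s hs
      have hs0 : 0 < s := by linarith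
      rw [ph_real (by positivity) (by positivity) hc0, sqrt_eq_zero'.2]
      · simp
      · have : z / s ≤ z := div_le_self hz.le hs.le
        linarith
  refine ⟨z + c, good_of (by positivity) ⟨fun _ => ENNReal.ofReal c, monotone_const⟩ (fun r => ?_)
    (key.trans (ENNReal.ofReal_le_ofReal (le_add_of_nonneg_left hz.le)))⟩
  exact (setLIntegral_mono' measurableSet_Ioi fun s hs =>
    mul_le_mul' le_rfl (ENNReal.ofReal_le_ofReal (kern_le hs r))).trans key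

theorem tendsto_ph {z B s : ℝ} {b : ℕ → ℝ} {y : ℕ → ℝ≥0∞} {y₀ : ℝ≥0∞} (hb : Tendsto b atTop (𝓝 B))
    (hy : Tendsto y atTop (𝓝 y₀)) :
    Tendsto (fun n => ph z (b n) s (y n)) atTop (𝓝 (ph z B s y₀)) :=
  (ENNReal.continuous_rpow_const.tendsto _).comp (ENNReal.Tendsto.sub
    (tendsto_const_nhds.add hy) (ENNReal.tendsto_ofReal hb) (Or.inr ENNReal.ofReal_ne_top))

theorem fatou {F : ℕ → ℝ → ℝ≥0∞} {F₀ : ℝ → ℝ≥0∞} (hm : ∀ n, Measurable (F n))
    (h : ∀ s, 0 < s → Tendsto (fun n => F n s) atTop (𝓝 (F₀ s))) {c : ℕ → ℝ≥0∞} {c₀ : ℝ≥0∞}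
    (hc : Tendsto c atTop (𝓝 c₀)) (hle : ∀ n, ∫⁻ s in Ioi (0 : ℝ), F n s ≤ c n) :
    ∫⁻ s in Ioi (0 : ℝ), F₀ s ≤ c₀ := by
  rw [lint_congr_Ioi (G := fun s => liminf (fun n => F n s) atTop)
    (fun s hs => (h s hs).liminf_eq.symm), ← hc.liminf_eq]
  exact (lintegral_liminf_le hm).trans (liminf_le_liminf (Eventually.of_forall hle))

/-- The least good slope, and convergence of the solutions from above. -/
theorem exists_least {z : ℝ} (hz : 0 < z) : ∃ B, Good z B ∧ (∀ B', Good z B' → B ≤ B') ∧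
    ∀ r, Tendsto (fun n : ℕ => Y z (B + 1 / (n + 1)) r) atTop (𝓝 (Y z B r)) := by
  obtain ⟨B, hB⟩ : ∃ B, B = sInf {B | Good z B} := ⟨_, rfl⟩
  have hbd : BddBelow {B | Good z B} := ⟨0, fun _ h => h.1⟩
  have hle : ∀ B', Good z B' → B ≤ B' := fun B' h => hB ▸ csInf_le hbd h
  have hp : ∀ n : ℕ, (0 : ℝ) < 1 / (n + 1) := fun n => by positivity
  have hg : ∀ n : ℕ, Good z (B + 1 / (n + 1)) := by
    intro n
    obtain ⟨B', h1, h2⟩ := exists_lt_of_csInf_lt (s := {B | Good z B}) (exists_good hz)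
      (show sInf {B | Good z B} < B + 1 / (n + 1) by rw [← hB]; linarith [hp n])
    exact Good.up h1 h2.le
  have hb : Tendsto (fun n : ℕ => B + 1 / ((n : ℝ) + 1)) atTop (𝓝 B) := by
    simpa using tendsto_one_div_add_atTop_nhds_zero_nat.const_add B
  have hmono : ∀ r, Monotone fun n : ℕ => Y z (B + 1 / (n + 1)) r := fun r n m h =>
    Y_anti (add_le_add le_rfl (Nat.one_div_le_one_div h)) r
  let y : ℝ →o ℝ≥0∞ := ⟨fun r => ⨆ n : ℕ, Y z (B + 1 / (n + 1)) r,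
    fun r r' h => iSup_mono fun n => (Y z _).monotone h⟩
  have hy : ∀ r, Tendsto (fun n : ℕ => Y z (B + 1 / (n + 1)) r) atTop (𝓝 (y r)) :=
    fun r => tendsto_atTop_iSup (hmono r)
  have hm : ∀ n : ℕ, Measurable fun s => ph z (B + 1 / (n + 1)) s (Y z (B + 1 / (n + 1)) s) :=
    fun n => measurable_ph _ _ (Y z _).monotone.measurable
  have h1 : ∀ r, ∫⁻ s in Ioi (0 : ℝ), ph z B s (y s) * ENNReal.ofReal (s - s ^ 2 / max r s) ≤ y r :=
    fun r => fatou (F := fun n s => ph z (B + 1 / (n + 1)) s (Y z (B + 1 / (n + 1)) s) *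
      ENNReal.ofReal (s - s ^ 2 / max r s))
      (fun n => (hm n).mul (by fun_prop)) (fun s _ => ENNReal.Tendsto.mul_const
      (tendsto_ph hb (hy s)) (Or.inr ENNReal.ofReal_ne_top)) (hy r) fun n => (Y_eq _ _ _).ge
  have h2 : ∫⁻ s in Ioi (0 : ℝ), ph z B s (y s) * ENNReal.ofReal s ≤ ENNReal.ofReal B :=
    fatou (F := fun n s => ph z (B + 1 / (n + 1)) s (Y z (B + 1 / (n + 1)) s) * ENNReal.ofReal s)
      (fun n => (hm n).mul (by fun_prop)) (fun s _ => ENNReal.Tendsto.mul_const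
      (tendsto_ph hb (hy s)) (Or.inr ENNReal.ofReal_ne_top)) (ENNReal.tendsto_ofReal hb)
      fun n => (hg n).2
  have hB0 : 0 ≤ B := hB ▸ le_csInf (exists_good hz) fun _ h => h.1
  refine ⟨B, good_of hB0 y h1 h2, hle, fun r => ?_⟩
  have : Y z B r = y r :=
    le_antisymm (Y_le y h1 r) (iSup_le fun n => Y_anti (by linarith [hp n]) r)
  rw [this]
  exact hy r

/-- The potential minus the chemical potential. -/
noncomputable def UU (z B r : ℝ) : ℝ := z / r - B + (Y z B r).toReal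

theorem measurable_UU (z B : ℝ) : Measurable (UU z B) := by
  have := (Y z B).monotone.measurable
  unfold UU
  fun_prop

theorem Good.ph_eq {z B : ℝ} (h : Good z B) (hz : 0 < z) {s : ℝ} (hs : 0 < s) :
    ph z B s (Y z B s) = ENNReal.ofReal (√(UU z B s) ^ 3) := by
  rw [UU, ← ph_real (by positivity) h.1 ENNReal.toReal_nonneg,
    ENNReal.ofReal_toReal (ne_top_of_le_ne_top ENNReal.ofReal_ne_top (h.le s))]

theorem Good.Y_eq {z B : ℝ} (h : Good z B) (hz : 0 < z) (r : ℝ) : Y z B r = ∫⁻ s in Ioi (0 : ℝ),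
    ENNReal.ofReal (√(UU z B s) ^ 3) * ENNReal.ofReal (s - s ^ 2 / max r s) := by
  rw [Pt.Y_eq]
  exact lint_congr_Ioi fun s hs => by rw [h.ph_eq hz hs]

theorem Kl_zero_eq (g : ℝ → ℝ) :
    Kl g 0 = ∫⁻ s in Ioi (0 : ℝ), ENNReal.ofReal (g s) * ENNReal.ofReal s := by
  refine lint_congr_Ioi fun s hs => ?_
  rw [max_eq_right hs.le]
  congr 2
  field_simp

theorem Good.Kl_le {z B : ℝ} (h : Good z B) (hz : 0 < z) :
    Kl (fun s => √(UU z B s) ^ 3) 0 ≤ ENNReal.ofReal B := by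
  rw [Kl_zero_eq]
  exact (lint_congr_Ioi fun s hs => by rw [h.ph_eq hz hs]).ge.trans h.2

/-- Radial solutions of the Thomas-Fermi equation for a point charge `z`. -/
structure Sol (z μ : ℝ) (U : ℝ → ℝ) : Prop where
  meas : Measurable U
  fin : Kl (fun s => √(U s) ^ 3) 0 ≠ ⊤
  mu : 0 ≤ μ
  eq : ∀ r, U r = z / r - μ - (Kl (fun s => √(U s) ^ 3) r).toReal

theorem Good.sol {z B : ℝ} (h : Good z B) (hz : 0 < z) :
    Sol z (B - (Kl (fun s => √(UU z B s) ^ 3) 0).toReal) (UU z B) := by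
  have hm := measurable_UU z B
  have hf := ne_top_of_le_ne_top ENNReal.ofReal_ne_top (h.Kl_le hz)
  refine ⟨hm, hf, sub_nonneg.2 (ENNReal.toReal_le_of_le_ofReal h.1 (h.Kl_le hz)), fun r => ?_⟩
  have e := Kl_zero (g := fun s => √(UU z B s) ^ 3) (by fun_prop) r
  rw [← h.Y_eq hz] at e
  have h1 := ENNReal.add_ne_top.1 (e ▸ hf)
  have h2 := congrArg ENNReal.toReal e
  rw [ENNReal.toReal_add h1.1 h1.2] at h2
  rw [h2]
  nth_rewrite 1 [UU]
  ring

end Pool.Agent.P.MP_d10cfe_mp.Pt
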