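import Pool.Agent.P.MP_d10cfe_mp.PtA

set_option autoImplicit false

namespace Pool.Agent.P.MP_d10cfe_mp.Pt

open MeasureTheory Set Real Filter Topology
open scoped ENNReal

noncomputable def J (f : ℝ → ℝ) (r : ℝ) : ℝ≥0∞ :=
  ∫⁻ s in Ioi (0 : ℝ), ENNReal.ofReal (f s) * ENNReal.ofReal (s * min r s)

theorem J_eq (f : ℝ → ℝ) {r : ℝ} (hr : 0 < r) : ENNReal.ofReal r * Kl f r = J f r := by
  unfold Kl J
  rw [← lintegral_const_mul' _ _ ENNReal.ofReal_ne_top]
  refine lint_congr_Ioi fun s hs => ?_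
  rw [mul_left_comm, ← ENNReal.ofReal_mul hr.le]
  congr 2
  rcases le_total r s with h | h
  · rw [max_eq_right h, min_eq_left h]
    field_simp
  · rw [max_eq_left h, min_eq_right h]
    field_simp

theorem J_add {f : ℝ → ℝ} (hf : Measurable f) {r : ℝ} (hr : 0 < r) {k : ℝ → ℝ}
    (hk : ∀ s, 0 < s → min r s ≤ k s) :
    ∫⁻ s in Ioi (0 : ℝ), ENNReal.ofReal (f s) * ENNReal.ofReal (s * k s) = J f r +
      ∫⁻ s in Ioi (0 : ℝ), ENNReal.ofReal (f s) * ENNReal.ofReal (s * (k s - min r s)) := by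
  unfold J
  rw [← lintegral_add_left (by fun_prop)]
  refine lint_congr_Ioi fun s hs => ?_
  rw [← mul_add, ← ENNReal.ofReal_add (by positivity)
    (mul_nonneg hs.le (sub_nonneg.2 (hk s hs)))]
  congr 2
  ring

theorem cube_le {a w : ℝ} (hw : 0 ≤ w) : √(a + w) ^ 3 ≤ √a ^ 3 + 2 * √(a + w) * w := by
  have h1 : √a ≤ √(a + w) := sqrt_le_sqrt (by linarith)
  have h2 : √(a + w) ^ 2 ≤ √a ^ 2 + w := by
    rw [sq_sqrt', sq_sqrt']
    exact max_le (by linarith [le_max_left a 0]) (by linarith [le_max_right a 0])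
  have h3 := sqrt_nonneg a
  generalize √(a + w) = p at *
  generalize √a = q at *
  have h4 : 0 ≤ p := h3.trans h1
  nlinarith [mul_le_mul_of_nonneg_left h2 h4, mul_nonneg (sub_nonneg.2 h1) (mul_nonneg h4 h3),
    mul_nonneg (sub_nonneg.2 h1) (mul_nonneg h4 (sub_nonneg.2 h1)),
    mul_nonneg (sub_nonneg.2 h1) (mul_nonneg h3 (sub_nonneg.2 h1))]

theorem le_cube {a a' : ℝ} (h0 : 0 ≤ a') (h : a' ≤ a) : √a * (a - a') ≤ √a ^ 3 - √a' ^ 3 := by
  have h1 : √a' ≤ √a := sqrt_le_sqrt h
  have h2 := sq_sqrt h0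
  have h3 := sq_sqrt (h0.trans h)
  have h4 := sqrt_nonneg a'
  generalize √a = p at *
  generalize √a' = q at *
  rw [← h2, ← h3]
  nlinarith [mul_nonneg (sub_nonneg.2 h1) (sq_nonneg q)]

theorem sqrt_mul_le {a s c : ℝ} (hs : 0 < s) (h : a * s ^ 2 ≤ c) : √a * s ≤ √c := by
  rw [← sqrt_sq hs.le, ← sqrt_mul' _ (sq_nonneg s)]
  exact sqrt_le_sqrt h

namespace Sol

variable {z μ : ℝ} {U : ℝ → ℝ}

theorem mf (h : Sol z μ U) : Measurable fun s => √(U s) ^ 3 := by
  have := h.meas
  fun_prop

theorem Kl_fin (h : Sol z μ U) (r : ℝ) : Kl (fun s => √(U s) ^ 3) r ≠ ⊤ :=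
  ne_top_of_le_ne_top h.fin (by rw [Kl_zero h.mf r]; exact le_self_add)

theorem J_fin (h : Sol z μ U) {r : ℝ} (hr : 0 < r) : J (fun s => √(U s) ^ 3) r ≠ ⊤ := by
  rw [← J_eq _ hr]
  exact ENNReal.mul_ne_top ENNReal.ofReal_ne_top (h.Kl_fin r)

theorem chi (h : Sol z μ U) {r : ℝ} (hr : 0 < r) :
    r * U r = z - μ * r - (J (fun s => √(U s) ^ 3) r).toReal := by
  rw [← J_eq _ hr, ENNReal.toReal_mul, ENNReal.toReal_ofReal hr.le]
  nth_rewrite 1 [h.eq r]
  field_simp

theorem chi_le (h : Sol z μ U) {r : ℝ} (hr : 0 < r) : r * U r ≤ z - μ * r := by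
  rw [h.chi hr]
  exact sub_le_self _ ENNReal.toReal_nonneg

theorem chi_le' (h : Sol z μ U) {r : ℝ} (hr : 0 < r) : r * U r ≤ z :=
  (h.chi_le hr).trans (sub_le_self _ (mul_nonneg h.mu hr.le))

theorem chi_anti (h : Sol z μ U) {r r' : ℝ} (hr : 0 < r) (hr' : r ≤ r') :
    r' * U r' + μ * (r' - r) ≤ r * U r := by
  have : J (fun s => √(U s) ^ 3) r ≤ J (fun s => √(U s) ^ 3) r' := by
    rw [J, J, J_add h.mf hr (k := fun s => min r' s) fun s _ => min_le_min_right _ hr']
    exact le_self_add
  have := ENNReal.toReal_mono (h.J_fin (hr.trans_le hr')) this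
  rw [h.chi hr, h.chi (hr.trans_le hr')]
  linarith

theorem back (h : Sol z 0 U) (hz : 0 < z) {r₁ : ℝ} (hr₁ : 0 < r₁) : 0 < U r₁ := by
  by_contra hU
  obtain ⟨c, hc⟩ : ∃ c, c = √(z * r₁) := ⟨_, rfl⟩
  have hc0 : 0 < c := hc ▸ sqrt_pos.2 (by positivity)
  have up : ∀ r s, 0 < r → r ≤ s → U r ≤ 0 → U s ≤ 0 := by
    intro r s hr hs h0
    have := h.chi_anti hr hs
    have h2 : r * U r ≤ 0 := mul_nonpos_of_nonneg_of_nonpos hr.le h0
    by_contra h3
    nlinarith [mul_pos (hr.trans_le hs) (not_le.1 h3)]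
  have step : ∀ r r', 0 < r → r ≤ r' → r' ≤ r₁ → r' - r ≤ 1 / (2 * c) → U r' ≤ 0 → U r ≤ 0 := by
    intro r r' hr hrr hr' hd h0
    by_contra h3
    have hp : 0 < r * U r := mul_pos hr (not_le.1 h3)
    have e := J_add h.mf hr (k := fun s => min r' s) fun s _ => min_le_min_right _ hrr
    have b : ∫⁻ s in Ioi (0 : ℝ), ENNReal.ofReal (√(U s) ^ 3) *
        ENNReal.ofReal (s * (min r' s - min r s)) ≤ ENNReal.ofReal (r * U r / 2) := by
      rw [split2 hr.le, split2 hrr, lint_congr_Ioc (a := 0) (b := r) (G := fun _ => 0),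
        lint_congr_Ioi (a := r') (G := fun _ => 0), lintegral_zero, lintegral_zero, zero_add,
        add_zero]
      · calc _ ≤ ∫⁻ _ in Ioc r r', ENNReal.ofReal (c * (r * U r)) := by
              refine setLIntegral_mono' measurableSet_Ioc fun s hs => ?_
              have hs0 : 0 < s := hr.trans hs.1
              rw [← ENNReal.ofReal_mul (by positivity), min_eq_right hs.2, min_eq_left hs.1.le]
              refine ENNReal.ofReal_le_ofReal ?_
              have a1 : √(U s) * s ≤ c := hc ▸ sqrt_mul_le hs0 (by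
                nlinarith [mul_le_mul_of_nonneg_left (h.chi_le' hs0) hs0.le, hs.2])
              have a2 : √(U s) ^ 2 * s ≤ r * U r := by
                have := h.chi_anti hr hs.1.le
                rw [sq_sqrt', max_mul_of_nonneg _ _ hs0.le]
                exact max_le (by linarith) (by linarith)
              calc _ ≤ √(U s) ^ 3 * (s * s) := by gcongr; linarith
                _ = (√(U s) * s) * (√(U s) ^ 2 * s) := by ring
                _ ≤ _ := by gcongr
          _ ≤ _ := by
              rw [setLIntegral_const, Real.volume_Ioc, ← ENNReal.ofReal_mul (by positivity)]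
              refine ENNReal.ofReal_le_ofReal ((mul_le_mul_of_nonneg_left hd
                (by positivity)).trans (le_of_eq ?_))
              field_simp
      · intro s hs
        rw [sqrt_eq_zero'.2 (up r' s (hr.trans_le hrr) hs.le h0)]
        simp
      · intro s _ hs
        rw [min_eq_right hs, min_eq_right (hs.trans hrr)]
        simp
    have f1 : J (fun s => √(U s) ^ 3) r' ≤ J (fun s => √(U s) ^ 3) r +
        ENNReal.ofReal (r * U r / 2) := e.le.trans (add_le_add le_rfl b)
    have f2 := ENNReal.toReal_mono (ENNReal.add_ne_top.2 ⟨h.J_fin hr, ENNReal.ofReal_ne_top⟩) f1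
    rw [ENNReal.toReal_add (h.J_fin hr) ENNReal.ofReal_ne_top,
      ENNReal.toReal_ofReal (by positivity)] at f2
    have f3 := h.chi hr
    have f4 := h.chi (hr.trans_le hrr)
    have f5 : r' * U r' ≤ 0 := mul_nonpos_of_nonneg_of_nonpos (hr.le.trans hrr) h0
    linarith
  have all : ∀ n : ℕ, ∀ r, 0 < r → r₁ - n * (1 / (2 * c)) ≤ r → U r ≤ 0 := by
    intro n
    induction n with
    | zero => exact fun r _ hr => up r₁ r hr₁ (by simpa using hr) (not_lt.1 hU)
    | succ n ih =>
      intro r hr hn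
      rcases le_total r₁ r with h1 | h1
      · exact up r₁ r hr₁ h1 (not_lt.1 hU)
      have hd : 0 < 1 / (2 * c) := by positivity
      push_cast at hn
      refine step r (min r₁ (r + 1 / (2 * c))) hr (le_min h1 (by linarith)) (min_le_left _ _)
        (by linarith [min_le_right r₁ (r + 1 / (2 * c))])
        (ih _ (lt_min hr₁ (by linarith)) (le_min ?_ (by linarith)))
      exact sub_le_self _ (by positivity)
  have zero : ∀ r, 0 < r → U r ≤ 0 := by
    intro r hr
    obtain ⟨n, hn⟩ := exists_nat_ge (r₁ * (2 * c))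
    refine all n r hr ?_
    have : r₁ ≤ n * (1 / (2 * c)) := by
      rw [mul_one_div, le_div_iff₀ (by positivity)]
      exact hn
    linarith
  have e := h.chi hr₁
  rw [J, lint_congr_Ioi (G := fun _ => 0) (fun s hs => by
    rw [sqrt_eq_zero'.2 (zero s hs)]; simp), lintegral_zero] at e
  have := mul_nonpos_of_nonneg_of_nonpos hr₁.le (zero r₁ hr₁)
  simp only [zero_mul, sub_zero, ENNReal.toReal_zero] at e
  linarith

theorem mass (h : Sol z 0 U) (hz : 0 < z) : ∫⁻ s in Ioi (0 : ℝ),
    ENNReal.ofReal (√(U s) ^ 3) * ENNReal.ofReal (s * s) = ENNReal.ofReal z := by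
  have mf := h.mf
  have le : ∫⁻ s in Ioi (0 : ℝ), ENNReal.ofReal (√(U s) ^ 3) * ENNReal.ofReal (s * s) ≤
      ENNReal.ofReal z := by
    refine fatou (F := fun n s => ENNReal.ofReal (√(U s) ^ 3) *
      ENNReal.ofReal (s * min ((n : ℝ) + 1) s)) (fun n => by fun_prop) (fun s _ => ?_)
      tendsto_const_nhds fun n => ?_
    · refine tendsto_const_nhds.congr' ?_
      filter_upwards [tendsto_natCast_atTop_atTop.eventually_ge_atTop s] with n hn
      rw [min_eq_right (by linarith)]
    · have hn : (0 : ℝ) < n + 1 := by positivity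
      have e := h.chi hn
      have := mul_pos hn (h.back hz hn)
      change J (fun s => √(U s) ^ 3) _ ≤ _
      rw [← ENNReal.ofReal_toReal (h.J_fin hn)]
      exact ENNReal.ofReal_le_ofReal (by linarith)
  refine le_antisymm le (not_lt.1 fun hlt => ?_)
  obtain ⟨M, hM⟩ : ∃ M, M = ∫⁻ s in Ioi (0 : ℝ),
    ENNReal.ofReal (√(U s) ^ 3) * ENNReal.ofReal (s * s) := ⟨_, rfl⟩
  rw [← hM] at hlt
  obtain ⟨k, hk⟩ : ∃ k, k = z - M.toReal := ⟨_, rfl⟩
  have hk0 : 0 < k := hk ▸ sub_pos.2 (ENNReal.toReal_lt_of_lt_ofReal hlt)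
  have low : ∀ r, 0 < r → k ≤ r * U r := by
    intro r hr
    have : J (fun s => √(U s) ^ 3) r ≤ M := by
      rw [hM, J_add mf hr (k := fun s => s) fun s _ => min_le_right _ _]
      exact le_self_add
    have := ENNReal.toReal_mono hlt.ne_top this
    rw [h.chi hr]
    linarith
  have hq : 0 < √k := sqrt_pos.2 hk0
  obtain ⟨t, ht⟩ : ∃ t, t = ((Kl (fun s => √(U s) ^ 3) 0).toReal + 1) / (k * √k) := ⟨_, rfl⟩
  have ht0 : 0 < t := by rw [ht]; positivity
  have : ENNReal.ofReal (k * √k * t) ≤ Kl (fun s => √(U s) ^ 3) 0 := by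
    rw [Kl_zero_eq, split2 (sq_nonneg t)]
    refine le_trans ?_ le_self_add
    calc _ = ∫⁻ _ in Ioc 0 (t ^ 2), ENNReal.ofReal (k * √k / t) := by
          rw [setLIntegral_const, Real.volume_Ioc, ← ENNReal.ofReal_mul (by positivity)]
          congr 1
          field_simp
          ring
      _ ≤ _ := by
          refine setLIntegral_mono' measurableSet_Ioc fun s hs => ?_
          have hs0 : 0 < s := hs.1
          have hU := h.back hz hs0
          rw [← ENNReal.ofReal_mul (by positivity)]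
          refine ENNReal.ofReal_le_ofReal ?_
          have a1 : √k ≤ √(U s) * t := by
            rw [← sqrt_sq ht0.le, ← sqrt_mul hU.le]
            exact sqrt_le_sqrt (by nlinarith [low s hs0, hs.2])
          rw [div_le_iff₀ ht0]
          calc k * √k ≤ (s * U s) * (√(U s) * t) := by gcongr; exact low s hs0
            _ = (s * √(U s) ^ 2) * (√(U s) * t) := by rw [sq_sqrt hU.le]
            _ = _ := by ring
  have h2 := (ENNReal.ofReal_le_iff_le_toReal h.fin).1 this
  have h3 : k * √k * t = (Kl (fun s => √(U s) ^ 3) 0).toReal + 1 := by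
    rw [ht]
    field_simp
  linarith

theorem far (h : Sol z 0 U) (hz : 0 < z) {R : ℝ} (hR : 0 < R) : ∃ b, R ≤ b ∧ 100 < b ^ 4 * U b := by
  by_contra hcon
  push Not at hcon
  have step : ∀ m, 0 ≤ m → m ≤ 100 → (∀ r, R ≤ r → r ^ 4 * U r ≤ m) →
      ∀ r, R ≤ r → r ^ 4 * U r ≤ 5 / 6 * m := by
    intro m m0 m1 hm r hr
    have hr0 : 0 < r := hR.trans_le hr
    have e := J_add h.mf hr0 (k := fun s => s) fun s _ => min_le_right _ _
    rw [h.mass hz] at e
    have b : ∫⁻ s in Ioi (0 : ℝ), ENNReal.ofReal (√(U s) ^ 3) *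
        ENNReal.ofReal (s * (s - min r s)) ≤ ENNReal.ofReal (5 / 6 * m * r⁻¹ ^ 3) := by
      rw [split2 hr0.le, lint_congr_Ioc (a := 0) (b := r) (G := fun _ => 0), lintegral_zero,
        zero_add]
      · calc _ ≤ ∫⁻ s in Ioi r, ENNReal.ofReal (10 * m * s⁻¹ ^ (2 + 2) -
              10 * m * r * s⁻¹ ^ (3 + 2)) := by
              refine setLIntegral_mono' measurableSet_Ioi fun s hs => ?_
              have hs' : r < s := hs
              have hs0 : 0 < s := hr0.trans hs'
              rw [← ENNReal.ofReal_mul (by positivity), min_eq_left hs'.le]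
              refine ENNReal.ofReal_le_ofReal ?_
              have a0 := hm s (hr.trans hs'.le)
              have a1 : √(U s) * s ^ 2 ≤ 10 := by
                refine (sqrt_mul_le (c := 10 ^ 2) (by positivity) (by nlinarith)).trans ?_
                rw [sqrt_sq (by norm_num)]
              have a2 : √(U s) ^ 2 * s ^ 4 ≤ m := by
                rw [sq_sqrt (h.back hz hs0).le]
                linarith
              have a3 : 0 ≤ s⁻¹ ^ 5 * (s - r) := mul_nonneg (by positivity) (by linarith)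
              calc _ = (√(U s) * s ^ 2) * (√(U s) ^ 2 * s ^ 4) * (s⁻¹ ^ 5 * (s - r)) := by
                    field_simp
                _ ≤ 10 * m * (s⁻¹ ^ 5 * (s - r)) := by gcongr
                _ = _ := by norm_num only; field_simp
          _ = _ := by
              rw [lint_Ioi (l := 0) (F := fun s => -(10 * m / ((2 : ℕ) + 1) * s⁻¹ ^ (2 + 1)) -
                -(10 * m * r / ((3 : ℕ) + 1) * s⁻¹ ^ (3 + 1)))
                (fun s hs => (hasDerivAt_invpow _ 2 (hr0.trans_le hs)).sub
                  (hasDerivAt_invpow _ 3 (hr0.trans_le hs)))]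
              · congr 1
                push_cast
                field_simp
                ring
              · intro s hs
                have hs' : r < s := hs
                have hs0 : 0 < s := hr0.trans hs'
                have : 10 * m * s⁻¹ ^ (2 + 2) - 10 * m * r * s⁻¹ ^ (3 + 2) =
                    10 * m * (s⁻¹ ^ 5 * (s - r)) := by norm_num only; field_simp
                rw [this]
                exact mul_nonneg (by positivity) (mul_nonneg (by positivity) (by linarith))
              · have t := tendsto_inv_atTop_zero (𝕜 := ℝ)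
                simpa using (((t.pow (2 + 1)).const_mul (10 * m / ((2 : ℕ) + 1))).neg).sub
                  (((t.pow (3 + 1)).const_mul (10 * m * r / ((3 : ℕ) + 1))).neg)
      · intro s _ hs
        rw [min_eq_right hs]
        simp
    have f1 : ENNReal.ofReal z ≤ J (fun s => √(U s) ^ 3) r +
        ENNReal.ofReal (5 / 6 * m * r⁻¹ ^ 3) := e.le.trans (add_le_add le_rfl b)
    have f2 := ENNReal.toReal_mono (ENNReal.add_ne_top.2 ⟨h.J_fin hr0, ENNReal.ofReal_ne_top⟩) f1
    rw [ENNReal.toReal_add (h.J_fin hr0) ENNReal.ofReal_ne_top,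
      ENNReal.toReal_ofReal (by positivity), ENNReal.toReal_ofReal (by positivity)] at f2
    have f3 := h.chi hr0
    calc r ^ 4 * U r = r ^ 3 * (r * U r) := by ring
      _ ≤ r ^ 3 * (5 / 6 * m * r⁻¹ ^ 3) := mul_le_mul_of_nonneg_left (by linarith) (by positivity)
      _ = _ := by field_simp
  have all : ∀ n : ℕ, ∀ r, R ≤ r → r ^ 4 * U r ≤ (5 / 6) ^ n * 100 := by
    intro n
    induction n with
    | zero => simpa using hcon
    | succ n ih =>
      intro r hr
      have h1 : (5 / 6 : ℝ) ^ n ≤ 1 := pow_le_one₀ (by norm_num) (by norm_num)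
      refine (step _ (by positivity) (by linarith) ih r hr).trans (le_of_eq ?_)
      ring
  have hp : 0 < R ^ 4 * U R := mul_pos (by positivity) (h.back hz hR)
  obtain ⟨n, hn⟩ := exists_pow_lt_of_lt_one (div_pos hp (by norm_num : (0 : ℝ) < 100))
    (by norm_num : (5 / 6 : ℝ) < 1)
  have := all n R le_rfl
  linarith

end Sol

end Pool.Agent.P.MP_d10cfe_mp.Pt
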