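import Pool.Agent.P.MP_d10cfe_mp.PtB

set_option autoImplicit false

namespace Pool.Agent.P.MP_d10cfe_mp.Pt

open MeasureTheory Set Real Filter Topology
open scoped ENNReal

theorem gron {z B : ℝ} (h : Good z B) (hz : 0 < z)
    (hμ : 0 < B - (Kl (fun s => √(UU z B s) ^ 3) 0).toReal) : ∃ B', B' < B ∧ Good z B' := by
  have hs := h.sol hz
  obtain ⟨μ, hμe⟩ : ∃ μ, μ = B - (Kl (fun s => √(UU z B s) ^ 3) 0).toReal := ⟨_, rfl⟩
  rw [← hμe] at hμ hs
  have hμB : μ ≤ B := hμe ▸ sub_le_self _ ENNReal.toReal_nonneg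
  obtain ⟨r₀, hr₀⟩ : ∃ r₀, r₀ = 2 * z / μ := ⟨_, rfl⟩
  have r0 : 0 < r₀ := by rw [hr₀]; positivity
  obtain ⟨κ, hκ⟩ : ∃ κ, κ = 2 * √(z * r₀ + μ * r₀ ^ 2) := ⟨_, rfl⟩
  have κ0 : 0 ≤ κ := by rw [hκ]; positivity
  obtain ⟨η, hη⟩ : ∃ η, η = μ / 2 * exp (-(κ * r₀)) := ⟨_, rfl⟩
  have η0 : 0 < η := by rw [hη]; positivity
  have hηe : η * exp (κ * r₀) = μ / 2 := by rw [hη, mul_assoc, ← exp_add]; simp
  let w : ℝ → ℝ := fun r => η * exp (κ * min (max r 0) r₀)
  have wm : Monotone w := fun a b hab => mul_le_mul_of_nonneg_left (exp_le_exp.2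
    (mul_le_mul_of_nonneg_left (min_le_min_right _ (max_le_max_right _ hab)) κ0)) η0.le
  have w1 : ∀ r, η ≤ w r := fun r => le_mul_of_one_le_right η0.le
    (one_le_exp (mul_nonneg κ0 (le_min (le_max_right _ _) r0.le)))
  have w2 : ∀ r, w r ≤ μ / 2 := fun r => hηe ▸ mul_le_mul_of_nonneg_left (exp_le_exp.2
    (mul_le_mul_of_nonneg_left (min_le_right _ _) κ0)) η0.le
  have hηB : 0 ≤ B - η := by linarith [w1 0, w2 0]
  let y : ℝ →o ℝ≥0∞ := ⟨fun r => Y z B r + ENNReal.ofReal (w r - η), fun a b hab =>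
    add_le_add ((Y z B).monotone hab) (ENNReal.ofReal_le_ofReal (sub_le_sub_right (wm hab) _))⟩
  have hy : ∀ s, 0 < s → ph z (B - η) s (y s) = ENNReal.ofReal (√(UU z B s + w s) ^ 3) := by
    intro s hs0
    change ph z (B - η) s (Y z B s + ENNReal.ofReal (w s - η)) = _
    rw [← ENNReal.ofReal_toReal (ne_top_of_le_ne_top ENNReal.ofReal_ne_top (h.le s)),
      ← ENNReal.ofReal_add ENNReal.toReal_nonneg (sub_nonneg.2 (w1 s)),
      ph_real (by positivity) hηB (add_nonneg ENNReal.toReal_nonneg (sub_nonneg.2 (w1 s))), UU]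
    congr 3
    ring
  have key : ∀ (k : ℝ → ℝ) (R : ℝ), 0 ≤ R → R ≤ r₀ → (∀ s, 0 < s → k s ≤ s) →
      (∀ s, R < s → k s ≤ 0 ∨ r₀ ≤ s) →
      ∫⁻ s in Ioi (0 : ℝ), ph z (B - η) s (y s) * ENNReal.ofReal (k s) ≤
        (∫⁻ s in Ioi (0 : ℝ), ENNReal.ofReal (√(UU z B s) ^ 3) * ENNReal.ofReal (k s)) +
          ENNReal.ofReal (η * exp (κ * R) - η) := by
    intro k R R0 R1 hk hk'
    have e1 : ∫⁻ s in Ioc 0 R, ENNReal.ofReal (η * (exp (κ * s) * κ)) =
        ENNReal.ofReal (η * exp (κ * R) - η) := by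
      rw [lint_Ioc R0 (F := fun s => η * exp (κ * s)) (fun s _ => ?_) (by fun_prop)
        (fun s _ => by positivity)]
      · simp
      · simpa using (((hasDerivAt_id s).const_mul κ).exp).const_mul η
    rw [split2 R0, split2 R0, lint_congr_Ioi (a := R) (G := fun _ => 0), lintegral_zero, add_zero,
      add_right_comm, ← e1, ← lintegral_add_right _ (by fun_prop)]
    · refine le_trans (setLIntegral_mono' measurableSet_Ioc fun s hs' => ?_) le_self_add
      have hs0 : 0 < s := hs'.1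
      rcases le_total (k s) 0 with k0 | k0
      · rw [ENNReal.ofReal_of_nonpos k0]
        simp
      rw [hy s hs0, ← ENNReal.ofReal_mul (by positivity), ← ENNReal.ofReal_mul (by positivity),
        ← ENNReal.ofReal_add (by positivity) (by positivity)]
      refine ENNReal.ofReal_le_ofReal ?_
      have a1 := cube_le (a := UU z B s) (η0.le.trans (w1 s))
      have sr : s ≤ r₀ := hs'.2.trans R1
      have a2 : √(UU z B s + w s) * s ≤ √(z * r₀ + μ * r₀ ^ 2) := by
        refine sqrt_mul_le hs0 ?_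
        have b1 := mul_le_mul_of_nonneg_left (hs.chi_le' hs0) hs0.le
        have b2 : w s * s ^ 2 ≤ μ * r₀ ^ 2 :=
          mul_le_mul (by linarith [w2 s]) (by gcongr) (by positivity) hμ.le
        nlinarith
      have a3 : w s = η * exp (κ * s) := by
        simp only [w]
        rw [max_eq_left hs0.le, min_eq_left sr]
      have a4 : 2 * √(UU z B s + w s) * k s ≤ κ := by
        have := mul_le_mul_of_nonneg_left (hk s hs0) (sqrt_nonneg (UU z B s + w s))
        linarith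
      have a5 := mul_le_mul_of_nonneg_left a4 (η0.le.trans (w1 s))
      have a6 := mul_le_mul_of_nonneg_right a1 k0
      rw [← mul_assoc, ← a3]
      linarith
    · intro s hs'
      have hs0 : 0 < s := R0.trans_lt hs'
      rcases hk' s hs' with k0 | k0
      · rw [ENNReal.ofReal_of_nonpos k0, mul_zero]
      rw [hy s hs0, sqrt_eq_zero'.2]
      · simp
      have b1 := hs.chi_le hs0
      have b2 : 2 * z ≤ s * μ := by rwa [hr₀, div_le_iff₀ hμ] at k0
      have b3 := w2 s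
      by_contra b4
      nlinarith [mul_pos hs0 (not_le.1 b4)]
  refine ⟨B - η, by linarith, good_of hηB y (fun r => ?_) ?_⟩
  · refine (key (fun s => s - s ^ 2 / max r s) (min (max r 0) r₀)
      (le_min (le_max_right _ _) r0.le) (min_le_right _ _) (fun s hs0 => kern_le hs0 r)
      fun s hs' => ?_).trans (by rw [← h.Y_eq hz]; exact le_rfl)
    rcases min_lt_iff.1 hs' with c | c
    · exact Or.inl (kern_zero ((le_max_right _ _).trans_lt c) ((le_max_left _ _).trans c.le)).le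
    · exact Or.inr c.le
  · refine (key (fun s => s) r₀ r0.le le_rfl (fun _ _ => le_rfl) fun s c => Or.inr c.le).trans ?_
    rw [← Kl_zero_eq (fun s => √(UU z B s) ^ 3), ← ENNReal.ofReal_toReal hs.fin, hηe,
      ← ENNReal.ofReal_add ENNReal.toReal_nonneg (by linarith [w1 0, w2 0])]
    exact ENNReal.ofReal_le_ofReal (by linarith)

theorem UU_anti {z B B' : ℝ} (h : Good z B) (hB : B ≤ B') (r : ℝ) : UU z B' r ≤ UU z B r := by
  have := ENNReal.toReal_mono (ne_top_of_le_ne_top ENNReal.ofReal_ne_top (h.le r)) (Y_anti hB r)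
  unfold UU
  linarith

theorem rise {z B B' b : ℝ} (hz : 0 < z) (h : Good z B) (hB : B < B') (hb : 0 < b)
    (h0 : 0 ≤ UU z B' b) (h1 : 100 < b ^ 4 * UU z B b) : ∃ t, b / 3 ≤ t ∧ t ≤ b ∧
      √(UU z B t) ^ 3 - √(UU z B' t) ^ 3 < √(UU z B b) ^ 3 - √(UU z B' b) ^ 3 := by
  by_contra hcon
  push Not at hcon
  have h' := h.up hB.le
  have m' := measurable_UU z B'
  have hle := UU_anti h hB.le
  obtain ⟨H, hH⟩ : ∃ H, H = √(UU z B b) ^ 3 - √(UU z B' b) ^ 3 := ⟨_, rfl⟩
  have a1 := le_cube h0 (hle b)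
  rw [← hH] at hcon a1
  have H0 : 0 ≤ H := (mul_nonneg (sqrt_nonneg _) (sub_nonneg.2 (hle b))).trans a1
  have b3 : b / 3 ≤ b := by linarith
  have e1 : ∫⁻ s in Ioc (b / 3) b, ENNReal.ofReal (H * (s - s ^ 2 / b)) =
      ENNReal.ofReal (H * (10 / 81 * b ^ 2)) := by
    rw [lint_Ioc b3 (F := fun s => H * (s ^ 2 / 2 - s ^ 3 / (3 * b))) (fun s _ => ?_)
      (by fun_prop) (fun s hs => mul_nonneg H0 ?_)]
    · congr 1
      field_simp
      ring
    · refine ((((hasDerivAt_pow 2 s).div_const 2).sub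
        ((hasDerivAt_pow 3 s).div_const (3 * b))).const_mul H).congr_deriv ?_
      norm_num only
      field_simp
    · rw [sub_nonneg, div_le_iff₀ hb, sq]
      exact mul_le_mul_of_nonneg_left hs.2 (by linarith [hs.1])
  have mono : ∀ S : Set ℝ, ∫⁻ s in S, ENNReal.ofReal (√(UU z B' s) ^ 3) *
      ENNReal.ofReal (s - s ^ 2 / max b s) ≤ ∫⁻ s in S, ENNReal.ofReal (√(UU z B s) ^ 3) *
      ENNReal.ofReal (s - s ^ 2 / max b s) := fun S => lintegral_mono fun s =>
    mul_le_mul' (ENNReal.ofReal_le_ofReal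
      (pow_le_pow_left₀ (sqrt_nonneg _) (sqrt_le_sqrt (hle s)) 3)) le_rfl
  have e2 : Y z B' b + ENNReal.ofReal (H * (10 / 81 * b ^ 2)) ≤ Y z B b := by
    rw [h.Y_eq hz, h'.Y_eq hz, split2 (by linarith : 0 ≤ b / 3), split2 b3,
      split2 (by linarith : 0 ≤ b / 3), split2 b3, add_assoc, add_right_comm _ _ (ENNReal.ofReal _),
      ← e1, ← lintegral_add_right _ (by fun_prop)]
    refine add_le_add (mono _) (add_le_add
      (setLIntegral_mono' measurableSet_Ioc fun s hs => ?_) (mono _))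
    have hs0 : 0 < s := by linarith [hs.1]
    have k0 : 0 ≤ s - s ^ 2 / b := by
      rw [sub_nonneg, div_le_iff₀ hb, sq]
      exact mul_le_mul_of_nonneg_left hs.2 hs0.le
    rw [max_eq_left hs.2, ← ENNReal.ofReal_mul (by positivity),
      ← ENNReal.ofReal_mul (by positivity), ← ENNReal.ofReal_add (by positivity) (by positivity)]
    refine ENNReal.ofReal_le_ofReal ?_
    have := mul_le_mul_of_nonneg_right (hcon s hs.1.le hs.2) k0
    linarith
  have e3 := ENNReal.toReal_mono (ne_top_of_le_ne_top ENNReal.ofReal_ne_top (h.le b)) e2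
  rw [ENNReal.toReal_add (ne_top_of_le_ne_top ENNReal.ofReal_ne_top (h'.le b))
    ENNReal.ofReal_ne_top, ENNReal.toReal_ofReal (by positivity)] at e3
  have e4 : H * (10 / 81 * b ^ 2) < UU z B b - UU z B' b := by
    unfold UU
    linarith
  have e5 : 10 ≤ √(UU z B b) * b ^ 2 := by
    rw [← sqrt_sq (by positivity : 0 ≤ b ^ 2), ← sqrt_mul (h0.trans (hle b))]
    exact le_sqrt_of_sq_le (by nlinarith)
  have e6 := mul_le_mul_of_nonneg_right a1 (sq_nonneg b)
  have e7 := mul_le_mul_of_nonneg_right e5 (sub_nonneg.2 (hle b))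
  nlinarith [hle b]

theorem short {H : ℝ → ℝ} {d : ℝ} (hd : 0 < d) {t b : ℝ} (htb : t ≤ b) (h : H t < H b) :
    ∃ t' b', t ≤ t' ∧ t' < b' ∧ b' ≤ t' + d ∧ H t' < H b' := by
  by_contra hcon
  push Not at hcon
  have all : ∀ n : ℕ, ∀ s, t ≤ s → s ≤ t + n * d → H s ≤ H t := by
    intro n
    induction n with
    | zero => exact fun s h1 h2 => by rw [le_antisymm (by simpa using h2) h1]
    | succ n ih =>
      intro s h1 h2
      rcases le_or_gt s (t + n * d) with c | c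
      · exact ih s h1 c
      have n0 : t ≤ t + n * d := le_add_of_nonneg_right (by positivity)
      push_cast at h2
      exact (hcon _ s n0 c (by linarith)).trans (ih _ n0 le_rfl)
  obtain ⟨n, hn⟩ := exists_nat_ge ((b - t) / d)
  rw [div_le_iff₀ hd] at hn
  exact absurd h (not_lt.2 (all n b htb (by linarith)))

theorem core {z a : ℝ} (hz : 0 < z) (ha : 0 < a) : ∃ (U U' : ℝ → ℝ) (μ : ℝ), Sol z 0 U ∧
    Sol z μ U' ∧ (∀ r, U' r ≤ U r) ∧ (∃ r, 0 < r ∧ 0 < U' r) ∧ ∃ t b, a ≤ t ∧ t < b ∧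
      b ≤ t + 2 * a ∧ √(U t) ^ 3 - √(U' t) ^ 3 < √(U b) ^ 3 - √(U' b) ^ 3 := by
  obtain ⟨B, hB, hmin, hlim⟩ := exists_least hz
  have hs := hB.sol hz
  have h0 : B - (Kl (fun s => √(UU z B s) ^ 3) 0).toReal = 0 := by
    refine le_antisymm (not_lt.1 fun hc => ?_) hs.mu
    obtain ⟨B', h1, h2⟩ := gron hB hz hc
    exact absurd (hmin _ h2) (not_le.2 h1)
  rw [h0] at hs
  obtain ⟨b, hb, hfar⟩ := hs.far hz (show 0 < 3 * a by positivity)
  have b0 : 0 < b := by linarith
  have hl : Tendsto (fun n : ℕ => UU z (B + 1 / (n + 1)) b) atTop (𝓝 (UU z B b)) := by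
    have hb : Tendsto (fun n : ℕ => B + 1 / ((n : ℝ) + 1)) atTop (𝓝 B) := by
      simpa using tendsto_one_div_add_atTop_nhds_zero_nat.const_add B
    exact (tendsto_const_nhds.sub hb).add ((ENNReal.tendsto_toReal
      (ne_top_of_le_ne_top ENNReal.ofReal_ne_top (hB.le b))).comp (hlim b))
  obtain ⟨n, hn⟩ := (hl.eventually_const_lt (hs.back hz b0)).exists
  have hp : B < B + 1 / (n + 1) := lt_add_of_pos_right _ (by positivity)
  obtain ⟨t, t1, t2, t3⟩ := rise hz hB hp b0 hn.le hfar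
  obtain ⟨t', b', c1, c2, c3, c4⟩ := short (H := fun s => √(UU z B s) ^ 3 -
    √(UU z (B + 1 / (n + 1)) s) ^ 3) (show 0 < 2 * a by positivity) t2 t3
  exact ⟨_, _, _, hs, (hB.up hp.le).sol hz, UU_anti hB hp.le, ⟨b, b0, hn⟩, t', b', by linarith,
    c2, c3, c4⟩

end Pool.Agent.P.MP_d10cfe_mp.Pt
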