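import Pool.Agent.P.MP_d10cfe_mp.PtC

set_option autoImplicit false

namespace Pool.Agent.P.MP_d10cfe_mp.Pt

open MeasureTheory Set Real Filter Topology
open scoped ENNReal

theorem energy_gap2 {γ μ : ℝ} {V ρ σ : E3 → ℝ}
    (hV : ∀ τ, AdmissibleDensity τ → Integrable fun x => V x * τ x) (hρ : AdmissibleDensity ρ)
    (hσ : AdmissibleDensity σ) (hint : ∫ x, σ x = ∫ x, ρ x) :
    Integrable (fun x => 3 / 5 * γ * σ x ^ (5 / 3 : ℝ) - 3 / 5 * γ * ρ x ^ (5 / 3 : ℝ) -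
      (V x - coulombPot ρ x - μ) * (σ x - ρ x)) ∧
    ∫ x, (3 / 5 * γ * σ x ^ (5 / 3 : ℝ) - 3 / 5 * γ * ρ x ^ (5 / 3 : ℝ) -
      (V x - coulombPot ρ x - μ) * (σ x - ρ x)) ≤ tfEnergy γ V σ - tfEnergy γ V ρ := by
  have i1 := hσ.2.2.2.const_mul (3 / 5 * γ)
  have i2 := hρ.2.2.2.const_mul (3 / 5 * γ)
  have i3 := hV σ hσ
  have i4 := hV ρ hρ
  have i5 := hσ.integrable_mul_pot hρ
  have i6 := hρ.integrable_mul_pot hρ
  have i7 := hσ.2.2.1.const_mul μ
  have i8 := hρ.2.2.1.const_mul μ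
  have e : (fun x => 3 / 5 * γ * σ x ^ (5 / 3 : ℝ) - 3 / 5 * γ * ρ x ^ (5 / 3 : ℝ) -
      (V x - coulombPot ρ x - μ) * (σ x - ρ x)) = fun x =>
      ((3 / 5 * γ * σ x ^ (5 / 3 : ℝ) - 3 / 5 * γ * ρ x ^ (5 / 3 : ℝ)) -
        (V x * σ x - V x * ρ x)) + ((σ x * coulombPot ρ x - ρ x * coulombPot ρ x) +
          (μ * σ x - μ * ρ x)) := by
    funext x
    ring
  have j1 : Integrable (fun x => 3 / 5 * γ * σ x ^ (5 / 3 : ℝ) - 3 / 5 * γ * ρ x ^ (5 / 3 : ℝ)) :=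
    i1.sub i2
  have j2 : Integrable (fun x => V x * σ x - V x * ρ x) := i3.sub i4
  have j3 : Integrable (fun x => σ x * coulombPot ρ x - ρ x * coulombPot ρ x) := i5.sub i6
  have j4 : Integrable (fun x => μ * σ x - μ * ρ x) := i7.sub i8
  have j5 : Integrable (fun x => (3 / 5 * γ * σ x ^ (5 / 3 : ℝ) - 3 / 5 * γ * ρ x ^ (5 / 3 : ℝ)) -
      (V x * σ x - V x * ρ x)) := j1.sub j2
  have j6 : Integrable (fun x => (σ x * coulombPot ρ x - ρ x * coulombPot ρ x) +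
      (μ * σ x - μ * ρ x)) := j3.add j4
  rw [e]
  refine ⟨j5.add j6, ?_⟩
  rw [integral_add j5 j6, integral_sub j1 j2, integral_add j3 j4, integral_sub i1 i2,
    integral_sub i3 i4, integral_sub i5 i6, integral_sub i7 i8]
  simp only [integral_const_mul]
  have hD : ∀ τ : E3 → ℝ, ∫ x, ∫ y, τ x * τ y / ‖x - y‖ = ∫ x, τ x * coulombPot τ x := by
    intro τ
    refine integral_congr_ae (Filter.Eventually.of_forall (fun x => ?_))
    simp only [coulombPot, mul_div_assoc]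
    rw [integral_const_mul]
  unfold tfEnergy
  rw [hD σ, hD ρ, hint]
  have := hσ.B_le hρ
  linarith

/-- A solution of the Thomas-Fermi equation is the unique Thomas-Fermi density of its mass. -/
theorem isTF_iff2 {γ μ lam : ℝ} {V ρ : E3 → ℝ} (hγ : 0 < γ)
    (hV : ∀ τ, AdmissibleDensity τ → Integrable fun x => V x * τ x) (hρ : AdmissibleDensity ρ)
    (hlam : ∫ x, ρ x = lam) (hpos : 0 < lam)
    (hμ : 0 ≤ μ) (hTF : ∀ x, γ * ρ x ^ (2 / 3 : ℝ) = max (V x - coulombPot ρ x - μ) 0)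
    (σ : E3 → ℝ) : IsTFDensity γ V lam σ ↔ σ = ρ := by
  constructor
  · rintro ⟨hσ, hσl, hmin, μ', -, hTF'⟩
    obtain ⟨hi, hle⟩ := energy_gap2 (γ := γ) (μ := μ) hV hρ hσ (hσl.trans hlam.symm)
    have h1 := hmin ρ hρ hlam
    have hnn : ∀ x, 0 ≤ 3 / 5 * γ * σ x ^ (5 / 3 : ℝ) - 3 / 5 * γ * ρ x ^ (5 / 3 : ℝ) -
        (V x - coulombPot ρ x - μ) * (σ x - ρ x) :=
      fun x => (convex_pt hγ (hσ.2.1 x) (hρ.2.1 x) (hTF x)).1
    have h2 := (integral_eq_zero_iff_of_nonneg hnn hi).1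
      (le_antisymm (by linarith) (integral_nonneg hnn))
    have h3 : ∀ᵐ x, σ x = ρ x := by
      filter_upwards [h2] with x hx
      exact (convex_pt hγ (hσ.2.1 x) (hρ.2.1 x) (hTF x)).2 hx
    have h4 : ∀ x, coulombPot σ x = coulombPot ρ x := by
      intro x
      refine integral_congr_ae ?_
      filter_upwards [h3] with y hy
      rw [hy]
    have h5 : ∃ x, σ x = ρ x ∧ ρ x ≠ 0 := by
      by_contra hcon
      push Not at hcon
      have : ∫ x, ρ x = 0 := by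
        refine integral_eq_zero_of_ae ?_
        filter_upwards [h3] with x hx
        exact hcon x hx
      linarith
    obtain ⟨x0, hx0, hx0'⟩ := h5
    have hp : 0 < γ * ρ x0 ^ (2 / 3 : ℝ) :=
      mul_pos hγ (rpow_pos_of_pos (lt_of_le_of_ne (hρ.2.1 x0) hx0'.symm) _)
    have h6 := hTF x0
    have h7 := hTF' x0
    rw [hx0, h4] at h7
    have hμμ : μ' = μ := by
      have a1 : max (V x0 - coulombPot ρ x0 - μ) 0 = V x0 - coulombPot ρ x0 - μ := by
        refine max_eq_left ?_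
        by_contra hc
        rw [max_eq_right (not_le.1 hc).le] at h6
        linarith
      have a2 : max (V x0 - coulombPot ρ x0 - μ') 0 = V x0 - coulombPot ρ x0 - μ' := by
        refine max_eq_left ?_
        by_contra hc
        rw [max_eq_right (not_le.1 hc).le] at h7
        linarith
      linarith
    funext x
    have h8 := hTF' x
    rw [h4, hμμ, ← hTF x] at h8
    have h9 := mul_left_cancel₀ hγ.ne' h8
    exact (rpow_left_inj (hσ.2.1 x) (hρ.2.1 x) (by norm_num)).1 h9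
  · rintro rfl
    refine ⟨hρ, hlam, ?_, μ, hμ, hTF⟩
    intro τ hτ hτl
    obtain ⟨-, hle⟩ := energy_gap2 (γ := γ) (μ := μ) hV hρ hτ (hτl.trans hlam.symm)
    have hnn : ∀ x, 0 ≤ 3 / 5 * γ * τ x ^ (5 / 3 : ℝ) - 3 / 5 * γ * σ x ^ (5 / 3 : ℝ) -
        (V x - coulombPot σ x - μ) * (τ x - σ x) :=
      fun x => (convex_pt hγ (hτ.2.1 x) (hρ.2.1 x) (hTF x)).1
    have : 0 ≤ ∫ x, (3 / 5 * γ * τ x ^ (5 / 3 : ℝ) - 3 / 5 * γ * σ x ^ (5 / 3 : ℝ) -
        (V x - coulombPot σ x - μ) * (τ x - σ x)) := integral_nonneg hnn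
    linarith

namespace Sol

variable {z μ : ℝ} {U : ℝ → ℝ}

theorem adm (h : Sol z μ U) (hz : 0 < z) (hfin : ∫⁻ s in Ioi (0 : ℝ),
    ENNReal.ofReal (√(U s) ^ 3) * ENNReal.ofReal (s ^ 2) ≠ ⊤) {c : ℝ} (hc : 0 ≤ c) :
    AdmissibleDensity fun y : E3 => c * √(U ‖y‖) ^ 3 := by
  have hm := h.meas
  refine ⟨by fun_prop, fun y => by positivity, Integrable.const_mul ⟨Measurable.aestronglyMeasurable
    (by fun_prop), ?_⟩ c, ?_⟩
  · rw [hasFiniteIntegral_iff_ofReal (Eventually.of_forall fun y => by positivity),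
      lintegral_radial3 (fun s => ENNReal.ofReal (√(U s) ^ 3)) (by fun_prop)]
    exact ENNReal.mul_lt_top ENNReal.ofReal_lt_top hfin.lt_top
  · have e : (fun y : E3 => (c * √(U ‖y‖) ^ 3) ^ (5 / 3 : ℝ)) =
        fun y : E3 => c ^ (5 / 3 : ℝ) * √(U ‖y‖) ^ 5 := by
      funext y
      rw [mul_rpow hc (by positivity), ← rpow_natCast, ← rpow_mul (sqrt_nonneg _),
        ← rpow_natCast _ 5]
      norm_num
    rw [e]
    refine Integrable.const_mul ⟨Measurable.aestronglyMeasurable (by fun_prop), ?_⟩ _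
    rw [hasFiniteIntegral_iff_ofReal (Eventually.of_forall fun y => by positivity),
      lintegral_radial3 (fun s => ENNReal.ofReal (√(U s) ^ 5)) (by fun_prop)]
    refine ENNReal.mul_lt_top ENNReal.ofReal_lt_top (lt_of_le_of_lt ?_
      (ENNReal.mul_lt_top (ENNReal.ofReal_lt_top (r := z)) h.fin.lt_top))
    rw [Kl_zero_eq, ← lintegral_const_mul' _ _ ENNReal.ofReal_ne_top]
    refine setLIntegral_mono' measurableSet_Ioi fun s hs => ?_
    have hs0 : 0 < s := hs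
    rw [← ENNReal.ofReal_mul (by positivity), ← ENNReal.ofReal_mul (by positivity),
      ← ENNReal.ofReal_mul hz.le]
    refine ENNReal.ofReal_le_ofReal ?_
    have a2 : √(U s) ^ 2 * s ≤ z := by
      have := h.chi_le' hs0
      rw [sq_sqrt', max_mul_of_nonneg _ _ hs0.le]
      exact max_le (by linarith) (by linarith)
    calc _ = (√(U s) ^ 2 * s) * (√(U s) ^ 3 * s) := by ring
      _ ≤ _ := by gcongr

theorem tf (h : Sol z μ U) {γ : ℝ} (hγ : 0 < γ) (x : E3) :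
    γ * ((γ / (4 * π)) ^ 3 * √(U ‖x‖) ^ 3) ^ (2 / 3 : ℝ) =
      max (4 * π * (γ / (4 * π)) ^ 3 * z / ‖x‖ -
        coulombPot (fun y : E3 => (γ / (4 * π)) ^ 3 * √(U ‖y‖) ^ 3) x -
          4 * π * (γ / (4 * π)) ^ 3 * μ) 0 := by
  have hp := pi_pos
  rw [tf_pt hγ, pot_radial h.mf (fun s => by positivity) (by positivity)]
  nth_rewrite 1 [h.eq ‖x‖]
  congr 1
  ring

end Sol

theorem int_point (z : ℝ) (R : E3) (τ : E3 → ℝ) (h : AdmissibleDensity τ) :
    Integrable fun x => z / ‖x - R‖ * τ x := by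
  refine ((h.integrable_div R).const_mul z).congr (Eventually.of_forall fun x => ?_)
  simp only [norm_sub_rev R x]
  ring

theorem shift {γ z μ lam : ℝ} {ρ : E3 → ℝ} (hγ : 0 < γ) (h : AdmissibleDensity ρ)
    (hl : ∫ x, ρ x = lam) (hp : 0 < lam) (hμ : 0 ≤ μ)
    (hTF : ∀ x, γ * ρ x ^ (2 / 3 : ℝ) = max (z / ‖x‖ - coulombPot ρ x - μ) 0) (R : E3)
    (σ : E3 → ℝ) : IsTFDensity γ (fun y => z / ‖y - R‖) lam σ ↔ σ = fun y => ρ (y - R) := by
  refine isTF_iff2 (μ := μ) (ρ := fun y => ρ (y - R)) hγ (int_point z R)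
    ⟨h.1.comp (by fun_prop), fun x => h.2.1 _,
    h.2.2.1.comp_sub_right R, h.2.2.2.comp_sub_right R⟩
    ((integral_sub_right_eq_self ρ R).trans hl) hp hμ (fun x => ?_) σ
  rw [hTF]
  unfold coulombPot
  rw [← integral_sub_right_eq_self (fun y => ρ y / ‖x - R - y‖) R]
  simp only [sub_sub_sub_cancel_right]

theorem point (γ z d : ℝ) (R n : EuclideanSpace ℝ (Fin 3)) (hγ : 0 < γ) (hz : 0 < z)
    (hn : ‖n‖ = 1) (hR : inner ℝ n R < d) :
    ∃ lam' : ℝ, 0 < lam' ∧ lam' < z ∧ ∃ ρ' ρ : EuclideanSpace ℝ (Fin 3) → ℝ,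
      (∀ σ, IsTFDensity γ (fun y => z / ‖y - R‖) lam' σ ↔ σ = ρ') ∧
      (∀ σ, IsTFDensity γ (fun y => z / ‖y - R‖) z σ ↔ σ = ρ) ∧
      ∃ x : EuclideanSpace ℝ (Fin 3), x ≠ R ∧ inner ℝ n x < d ∧
        ρ x - ρ (x + (2 * (d - inner ℝ n x)) • n) <
          ρ' x - ρ' (x + (2 * (d - inner ℝ n x)) • n) := by
  obtain ⟨a, hae⟩ : ∃ a, a = d - inner ℝ n R := ⟨_, rfl⟩
  have ha : 0 < a := hae ▸ sub_pos.2 hR
  have hp := pi_pos
  obtain ⟨c, hce⟩ : ∃ c, c = (γ / (4 * π)) ^ 3 := ⟨_, rfl⟩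
  have hc : 0 < c := by rw [hce]; positivity
  have hz' : 0 < z / (4 * π * c) := by positivity
  obtain ⟨U, U', μ, hU, hU', hle, ⟨r, r0, r1⟩, t, b, t1, t2, t3, t4⟩ := core hz' ha
  have ez : 4 * π * c * (z / (4 * π * c)) = z := by field_simp
  have T := hU.tf hγ
  have T' := hU'.tf hγ
  rw [← hce, ez] at T T'
  have M := hU.mass hz'
  simp only [← sq] at M
  have hf : ∀ s, √(U' s) ^ 3 ≤ √(U s) ^ 3 := fun s =>
    pow_le_pow_left₀ (sqrt_nonneg _) (sqrt_le_sqrt (hle s)) 3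
  have A := hU.adm hz' (by rw [M]; exact ENNReal.ofReal_ne_top) hc.le
  have A' := hU'.adm hz' (ne_top_of_le_ne_top ENNReal.ofReal_ne_top ((lintegral_mono fun s =>
    mul_le_mul' (ENNReal.ofReal_le_ofReal (hf s)) le_rfl).trans M.le)) hc.le
  have l : ∫ y : E3, c * √(U ‖y‖) ^ 3 = z := by
    rw [mass_radial hU.mf (fun s => by positivity), M, ENNReal.toReal_ofReal hz'.le, ez]
  have l1 : 0 < ∫ y : E3, c * √(U' ‖y‖) ^ 3 := by
    rw [integral_pos_iff_support_of_nonneg A'.2.1 A'.2.2.1]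
    refine lt_of_lt_of_le (Metric.measure_ball_pos volume (0 : E3) r0) ((measure_sdiff_null
      (measure_singleton (0 : E3))).ge.trans (measure_mono ?_))
    rintro y ⟨hy, hy0⟩
    have h1 : ‖y‖ < r := by simpa using hy
    have h2 : 0 < ‖y‖ := norm_pos_iff.2 hy0
    have h3 := hU'.chi_anti h2 h1.le
    have h4 := mul_nonneg hU'.mu (sub_nonneg.2 h1.le)
    have h5 : 0 < U' ‖y‖ := (mul_pos_iff_of_pos_left h2).1 (by linarith [mul_pos r0 r1])
    exact (mul_pos hc (pow_pos (sqrt_pos.2 h5) 3)).ne'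
  have I := shift (μ := 4 * π * c * 0) hγ A l hz (by simp) T R
  have I' := shift (μ := 4 * π * c * μ) hγ A' rfl l1 (mul_nonneg (by positivity) hU'.mu) T' R
  obtain ⟨s, hs⟩ : ∃ s, s = a - (b ^ 2 - t ^ 2) / (4 * a) := ⟨_, rfl⟩
  have t0 : 0 < t := ha.trans_le t1
  have s1 : s < a := by
    rw [hs]
    exact sub_lt_self _ (div_pos (by nlinarith) (by positivity))
  have s2 : -t ≤ s := by
    have : (b ^ 2 - t ^ 2) / (4 * a) ≤ a + t := by
      rw [div_le_iff₀ (by positivity)]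
      nlinarith
    linarith
  have s3 : 0 ≤ t ^ 2 - s ^ 2 := by nlinarith
  obtain ⟨x, hx⟩ : ∃ x : E3, x = !₂[s, √(t ^ 2 - s ^ 2), 0] := ⟨_, rfl⟩
  have x0 : x 0 = s := by simp [hx]
  have n1 : ‖x‖ = t := by
    rw [EuclideanSpace.norm_eq, sqrt_eq_iff_mul_self_eq (by positivity) t0.le]
    simp [hx, Fin.sum_univ_three, sq_sqrt s3]
    ring
  have n2 : ‖x + EuclideanSpace.single 0 (2 * (a - x 0))‖ = b := by
    rw [EuclideanSpace.norm_eq, sqrt_eq_iff_mul_self_eq (by positivity) (by linarith), x0]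
    simp [hx, Fin.sum_univ_three, sq_sqrt s3]
    rw [hs]
    field_simp
    ring
  have lt := mul_lt_mul_of_pos_left t4 hc
  have hn' : ‖(EuclideanSpace.single 0 1 : E3)‖ = ‖n‖ := by simp [hn]
  obtain ⟨L, hL⟩ : ∃ L : E3 ≃ₗᵢ[ℝ] E3, L (EuclideanSpace.single 0 1) = n :=
    ⟨_, Submodule.reflection_sub hn'⟩
  have i1 : inner ℝ n (R + L x) = inner ℝ n R + x 0 := by
    rw [inner_add_right]
    nth_rewrite 2 [← hL]
    rw [L.inner_map_map]
    simp [EuclideanSpace.inner_single_left]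
  have m1 : ‖R + L x - R‖ = t := by rw [add_sub_cancel_left, L.norm_map, n1]
  have m2 : ‖R + L x + (2 * (d - inner ℝ n (R + L x))) • n - R‖ = b := by
    rw [i1, ← sub_sub, ← hae, add_assoc, add_sub_cancel_left, ← hL, ← map_smul, ← map_add,
      L.norm_map, ← n2]
    congr 2
    ext i
    simp
  refine ⟨_, l1, lt_of_le_of_ne (l ▸ integral_mono A'.2.2.1 A.2.2.1 fun y =>
    mul_le_mul_of_nonneg_left (hf _) hc.le) fun e => ?_, _, _, I', I, R + L x,
    sub_ne_zero.1 (norm_pos_iff.1 (m1 ▸ t0)), by rw [i1]; linarith, ?_⟩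
  · have e2 := (I _).1 (e ▸ (I' _).2 rfl)
    have e3 := congrFun e2 (R + L x)
    have e4 := congrFun e2 (R + L x + (2 * (d - inner ℝ n (R + L x))) • n)
    simp only [m1, m2] at e3 e4
    linarith
  · simp only [m1, m2]
    linarith

end Pool.Agent.P.MP_d10cfe_mp.Pt
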