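import Pool.Agent.P.MP_d10cfe_mp.Minimal

set_option autoImplicit false

namespace Pool.Agent.P.MP_d10cfe_mp

open MeasureTheory Set Real Filter Topology
open scoped ENNReal

theorem lint_Ioc {a b : ℝ} (hab : a ≤ b) {F f : ℝ → ℝ} (hF : ∀ s ∈ Icc a b, HasDerivAt F (f s) s)
    (hc : ContinuousOn f (Icc a b)) (h0 : ∀ s ∈ Icc a b, 0 ≤ f s) :
    ∫⁻ s in Ioc a b, ENNReal.ofReal (f s) = ENNReal.ofReal (F b - F a) := by
  have hi : IntervalIntegrable f volume a b := by
    apply ContinuousOn.intervalIntegrable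
    rwa [uIcc_of_le hab]
  rw [← intervalIntegral.integral_eq_sub_of_hasDerivAt (by rwa [uIcc_of_le hab]) hi,
    intervalIntegral.integral_of_le hab, ofReal_integral_eq_lintegral_ofReal hi.1]
  filter_upwards [ae_restrict_mem measurableSet_Ioc] with s hs
  exact h0 s (Ioc_subset_Icc_self hs)

theorem lint_Ioi {a l : ℝ} {F f : ℝ → ℝ} (hF : ∀ s ∈ Ici a, HasDerivAt F (f s) s)
    (h0 : ∀ s ∈ Ioi a, 0 ≤ f s) (hl : Tendsto F atTop (𝓝 l)) :
    ∫⁻ s in Ioi a, ENNReal.ofReal (f s) = ENNReal.ofReal (l - F a) := by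
  rw [← integral_Ioi_of_hasDerivAt_of_nonneg' hF h0 hl,
    ofReal_integral_eq_lintegral_ofReal (integrableOn_Ioi_deriv_of_nonneg' hF h0 hl)]
  filter_upwards [ae_restrict_mem measurableSet_Ioi] with s hs
  exact h0 s hs

theorem split2 {a b : ℝ} (hab : a ≤ b) (F : ℝ → ℝ≥0∞) :
    ∫⁻ s in Ioi a, F s = (∫⁻ s in Ioc a b, F s) + ∫⁻ s in Ioi b, F s := by
  rw [← Ioc_union_Ioi_eq_Ioi hab, lintegral_union measurableSet_Ioi Ioc_disjoint_Ioi_same]

theorem lint_pow (c : ℝ) (hc : 0 ≤ c) (n : ℕ) {a b : ℝ} (ha : 0 ≤ a) (hab : a ≤ b) :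
    ∫⁻ s in Ioc a b, ENNReal.ofReal (c * s ^ n) =
      ENNReal.ofReal (c * b ^ (n + 1) / (n + 1) - c * a ^ (n + 1) / (n + 1)) := by
  refine lint_Ioc hab (F := fun s => c * s ^ (n + 1) / (n + 1)) (fun s _ => ?_) (by fun_prop)
    (fun s hs => mul_nonneg hc (pow_nonneg (ha.trans hs.1) _))
  have h := ((hasDerivAt_pow (n + 1) s).const_mul c).div_const ((n : ℝ) + 1)
  refine h.congr_deriv ?_
  simp only [Nat.add_sub_cancel]
  push_cast
  field_simp

theorem hasDerivAt_invpow (c : ℝ) (n : ℕ) {s : ℝ} (hs : 0 < s) :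
    HasDerivAt (fun s : ℝ => -(c / (n + 1) * s⁻¹ ^ (n + 1))) (c * s⁻¹ ^ (n + 2)) s := by
  have h := (((hasDerivAt_inv hs.ne').pow (n + 1)).const_mul (c / (n + 1))).neg
  refine h.congr_deriv ?_
  simp only [Nat.add_sub_cancel]
  push_cast
  rw [← inv_pow s 2, pow_add s⁻¹ n 2]
  generalize s⁻¹ = t
  field_simp

theorem lint_invpow_Ioc (c : ℝ) (hc : 0 ≤ c) (n : ℕ) {a b : ℝ} (ha : 0 < a) (hab : a ≤ b) :
    ∫⁻ s in Ioc a b, ENNReal.ofReal (c * s⁻¹ ^ (n + 2)) =
      ENNReal.ofReal (c / (n + 1) * a⁻¹ ^ (n + 1) - c / (n + 1) * b⁻¹ ^ (n + 1)) := by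
  rw [lint_Ioc hab (F := fun s : ℝ => -(c / (n + 1) * s⁻¹ ^ (n + 1)))
    (fun s hs => hasDerivAt_invpow c n (ha.trans_le hs.1))]
  · congr 1
    ring
  · refine ContinuousOn.mul continuousOn_const (ContinuousOn.pow ?_ _)
    exact continuousOn_inv₀.mono (fun s hs => (ha.trans_le hs.1).ne')
  · intro s hs
    have := ha.trans_le hs.1
    positivity

theorem lint_invpow_Ioi (c : ℝ) (hc : 0 ≤ c) (n : ℕ) {a : ℝ} (ha : 0 < a) :
    ∫⁻ s in Ioi a, ENNReal.ofReal (c * s⁻¹ ^ (n + 2)) =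
      ENNReal.ofReal (c / (n + 1) * a⁻¹ ^ (n + 1)) := by
  rw [lint_Ioi (l := 0) (F := fun s : ℝ => -(c / (n + 1) * s⁻¹ ^ (n + 1)))
    (fun s hs => hasDerivAt_invpow c n (ha.trans_le hs))]
  · congr 1
    ring
  · intro s hs
    have := ha.trans hs
    positivity
  · have h := ((tendsto_inv_atTop_zero.pow (n + 1)).const_mul (c / (n + 1))).neg
    simpa using h

/-- The radial Coulomb operator. -/
noncomputable def Kl (g : ℝ → ℝ) (r : ℝ) : ℝ≥0∞ :=
  ∫⁻ s in Ioi (0 : ℝ), ENNReal.ofReal (g s) * ENNReal.ofReal (s ^ 2 / max r s)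

theorem pot_radial {g : ℝ → ℝ} (hg : Measurable g) (h0 : ∀ s, 0 ≤ g s) {c : ℝ} (hc : 0 ≤ c)
    (x : E3) : coulombPot (fun y => c * g ‖y‖) x = 4 * π * c * (Kl g ‖x‖).toReal := by
  rw [coulombPot_eq (by fun_prop) (fun y => mul_nonneg hc (h0 _))]
  unfold cP Kl
  rw [newton (fun s => ENNReal.ofReal (c * g s)) (by fun_prop)]
  simp_rw [ENNReal.ofReal_mul hc, mul_assoc]
  rw [lintegral_const_mul' _ _ ENNReal.ofReal_ne_top, ENNReal.toReal_mul, ENNReal.toReal_mul,
    ENNReal.toReal_ofReal (by positivity), ENNReal.toReal_ofReal hc]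
  ring

theorem Kl_ne_top {g : ℝ → ℝ} (hg : Measurable g) (h : AdmissibleDensity (fun y : E3 => g ‖y‖))
    (x : E3) : Kl g ‖x‖ ≠ ⊤ := by
  have h1 := h.cP_lt_top x
  unfold cP at h1
  rw [newton (fun s => ENNReal.ofReal (g s)) (by fun_prop)] at h1
  intro h2
  unfold Kl at h2
  rw [h2, ENNReal.mul_top (by simp [pi_pos])] at h1
  exact lt_irrefl _ h1

theorem mass_radial {g : ℝ → ℝ} (hg : Measurable g) (h0 : ∀ s, 0 ≤ g s) (c : ℝ) :
    ∫ y : E3, c * g ‖y‖ = 4 * π * c *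
      (∫⁻ s in Ioi (0 : ℝ), ENNReal.ofReal (g s) * ENNReal.ofReal (s ^ 2)).toReal := by
  rw [integral_const_mul, integral_eq_lintegral_of_nonneg_ae
    (Eventually.of_forall (fun y => h0 _)) (Measurable.aestronglyMeasurable (by fun_prop)),
    lintegral_radial3 (fun s => ENNReal.ofReal (g s)) (by fun_prop), ENNReal.toReal_mul,
    ENNReal.toReal_ofReal (by positivity)]
  ring

theorem admissible_of_le {ρ : E3 → ℝ} (hm : Measurable ρ) (h0 : ∀ y, 0 ≤ ρ y) {C : ℝ}
    (hC : ∀ y, ρ y * (1 + ‖y‖) ^ 4 ≤ C) : AdmissibleDensity ρ := by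
  have hb : ∀ y, ρ y ≤ C := by
    intro y
    have h1 : 1 ≤ (1 + ‖y‖) ^ 4 := one_le_pow₀ (by linarith [norm_nonneg y])
    nlinarith [hC y, h0 y]
  have hi : Integrable ρ := by
    have h1 : Integrable (fun y : E3 => (1 + ‖y‖) ^ (-(4 : ℝ))) :=
      integrable_one_add_norm (by simp; norm_num)
    refine (h1.const_mul C).mono' hm.aestronglyMeasurable (Eventually.of_forall (fun y => ?_))
    have h2 : 0 < 1 + ‖y‖ := by positivity
    rw [Real.norm_eq_abs, abs_of_nonneg (h0 y), rpow_neg h2.le,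
      show (4 : ℝ) = ((4 : ℕ) : ℝ) by norm_num, rpow_natCast, ← div_eq_mul_inv,
      le_div_iff₀ (by positivity)]
    exact hC y
  refine ⟨hm, h0, hi, ?_⟩
  refine (hi.const_mul (C ^ (2 / 3 : ℝ))).mono' (Measurable.aestronglyMeasurable (by fun_prop))
    (Eventually.of_forall (fun y => ?_))
  rw [Real.norm_eq_abs, abs_of_nonneg (rpow_nonneg (h0 y) _),
    show (5 / 3 : ℝ) = 2 / 3 + 1 by norm_num, rpow_add' (h0 y) (by norm_num), rpow_one]
  exact mul_le_mul_of_nonneg_right (rpow_le_rpow (h0 y) (hb y) (by norm_num)) (h0 y)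

theorem coulombPot_add {ρ σ : E3 → ℝ} (h : AdmissibleDensity ρ) (h' : AdmissibleDensity σ)
    (x : E3) : coulombPot (fun y => ρ y + σ y) x = coulombPot ρ x + coulombPot σ x := by
  unfold coulombPot
  rw [← integral_add (h.integrable_div x) (h'.integrable_div x)]
  simp_rw [add_div]

/-- The uniform part of the nuclear density. -/
noncomputable def eIn (s : ℝ) : ℝ := if s ≤ 1 then 1728 else 0

/-- The electron density of the neutral atom outside of the nucleus. -/
noncomputable def fOut (s : ℝ) : ℝ := if s ≤ 1 then 0 else 1728 * s⁻¹ ^ 6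

theorem measurable_eIn : Measurable eIn :=
  Measurable.ite measurableSet_Iic measurable_const measurable_const

theorem measurable_fOut : Measurable fOut :=
  Measurable.ite measurableSet_Iic measurable_const (by fun_prop)

theorem eIn_nonneg (s : ℝ) : 0 ≤ eIn s := by
  unfold eIn
  split_ifs <;> norm_num

theorem fOut_nonneg (s : ℝ) : 0 ≤ fOut s := by
  unfold fOut
  split_ifs <;> positivity

theorem lint_congr_Ioc {a b : ℝ} {F G : ℝ → ℝ≥0∞} (h : ∀ s, a < s → s ≤ b → F s = G s) :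
    ∫⁻ s in Ioc a b, F s = ∫⁻ s in Ioc a b, G s :=
  setLIntegral_congr_fun measurableSet_Ioc (fun s hs => h s hs.1 hs.2)

theorem lint_congr_Ioi {a : ℝ} {F G : ℝ → ℝ≥0∞} (h : ∀ s, a < s → F s = G s) :
    ∫⁻ s in Ioi a, F s = ∫⁻ s in Ioi a, G s :=
  setLIntegral_congr_fun measurableSet_Ioi (fun s hs => h s hs)

theorem Kl_eIn_le {r : ℝ} (h0 : 0 ≤ r) (h1 : r ≤ 1) :
    Kl eIn r = ENNReal.ofReal (864 - 288 * r ^ 2) := by
  unfold Kl
  rw [split2 h0, split2 h1,
    lint_congr_Ioc (a := 0) (b := r) (G := fun s => ENNReal.ofReal (1728 / r * s ^ 2)),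
    lint_congr_Ioc (a := r) (b := 1) (G := fun s => ENNReal.ofReal (1728 * s ^ 1)),
    lint_congr_Ioi (a := 1) (G := fun _ => 0), lint_pow _ (by positivity) _ le_rfl h0,
    lint_pow _ (by positivity) _ h0 h1, lintegral_zero, add_zero]
  · have e1 : 1728 / r * r ^ (2 + 1) / (((2 : ℕ) : ℝ) + 1) - 1728 / r * 0 ^ (2 + 1) /
        (((2 : ℕ) : ℝ) + 1) = 576 * r ^ 2 := by
      rcases eq_or_ne r 0 with h | h
      · simp [h]
      · push_cast
        field_simp
        ring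
    have e2 : r ^ 2 ≤ 1 := pow_le_one₀ h0 h1
    rw [e1, ← ENNReal.ofReal_add (by positivity) (by push_cast; nlinarith)]
    congr 1
    push_cast
    ring
  · intro s hs
    simp [eIn, not_le.2 hs]
  · intro s hs hs'
    have : 0 < s := h0.trans_lt hs
    rw [eIn, if_pos hs', max_eq_right hs.le, ← ENNReal.ofReal_mul (by norm_num)]
    congr 1
    field_simp
  · intro s hs hs'
    rw [eIn, if_pos (hs'.trans h1), max_eq_left hs', ← ENNReal.ofReal_mul (by norm_num)]
    congr 1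
    ring

theorem Kl_eIn_ge {r : ℝ} (h1 : 1 ≤ r) : Kl eIn r = ENNReal.ofReal (576 * r⁻¹) := by
  unfold Kl
  have h0 : 0 < r := by linarith
  rw [split2 zero_le_one,
    lint_congr_Ioc (a := 0) (b := 1) (G := fun s => ENNReal.ofReal (1728 / r * s ^ 2)),
    lint_congr_Ioi (a := 1) (G := fun _ => 0), lint_pow _ (by positivity) _ le_rfl zero_le_one,
    lintegral_zero, add_zero]
  · congr 1
    push_cast
    field_simp
    ring
  · intro s hs
    simp [eIn, not_le.2 hs]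
  · intro s hs hs'
    rw [eIn, if_pos hs', max_eq_left (hs'.trans h1), ← ENNReal.ofReal_mul (by norm_num)]
    congr 1
    ring

theorem Kl_fOut_le {r : ℝ} (h1 : r ≤ 1) : Kl fOut r = ENNReal.ofReal 432 := by
  unfold Kl
  rw [split2 zero_le_one, lint_congr_Ioc (a := 0) (b := 1) (G := fun _ => 0),
    lint_congr_Ioi (a := 1) (G := fun s => ENNReal.ofReal (1728 * s⁻¹ ^ (3 + 2))),
    lint_invpow_Ioi _ (by norm_num) _ one_pos, lintegral_zero, zero_add]
  · congr 1
    norm_num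
  · intro s hs
    have : 0 < s := by linarith
    rw [fOut, if_neg (not_le.2 hs), max_eq_right (h1.trans hs.le),
      ← ENNReal.ofReal_mul (by positivity)]
    congr 1
    norm_num only
    field_simp
  · intro s hs hs'
    simp [fOut, hs']

theorem Kl_fOut_ge {r : ℝ} (h1 : 1 ≤ r) :
    Kl fOut r = ENNReal.ofReal (576 * r⁻¹ - 144 * r⁻¹ ^ 4) := by
  unfold Kl
  have h0 : 0 < r := by linarith
  have h2 : r⁻¹ ≤ 1 := inv_le_one_of_one_le₀ h1
  have h3 : 0 ≤ r⁻¹ := by positivity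
  have h4 : r⁻¹ ^ 3 ≤ 1 := pow_le_one₀ h3 h2
  rw [split2 zero_le_one, split2 h1, lint_congr_Ioc (a := 0) (b := 1) (G := fun _ => 0),
    lint_congr_Ioc (a := 1) (b := r) (G := fun s => ENNReal.ofReal (1728 * r⁻¹ * s⁻¹ ^ (2 + 2))),
    lint_congr_Ioi (a := r) (G := fun s => ENNReal.ofReal (1728 * s⁻¹ ^ (3 + 2))),
    lint_invpow_Ioi _ (by norm_num) _ h0, lint_invpow_Ioc _ (by positivity) _ one_pos h1,
    lintegral_zero, zero_add, ← ENNReal.ofReal_add (by push_cast; nlinarith) (by positivity)]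
  · congr 1
    push_cast
    ring
  · intro s hs
    have : 0 < s := by linarith
    rw [fOut, if_neg (not_le.2 (h1.trans_lt hs)), max_eq_right hs.le,
      ← ENNReal.ofReal_mul (by positivity)]
    congr 1
    norm_num only
    field_simp
  · intro s hs hs'
    have : 0 < s := by linarith
    rw [fOut, if_neg (not_le.2 hs), max_eq_left hs', ← ENNReal.ofReal_mul (by positivity)]
    congr 1
    norm_num only
    field_simp
  · intro s hs hs'
    simp [fOut, hs']

theorem mass_eIn : ∫⁻ s in Ioi (0 : ℝ), ENNReal.ofReal (eIn s) * ENNReal.ofReal (s ^ 2) =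
    ENNReal.ofReal 576 := by
  rw [split2 zero_le_one,
    lint_congr_Ioc (a := 0) (b := 1) (G := fun s => ENNReal.ofReal (1728 * s ^ 2)),
    lint_congr_Ioi (a := 1) (G := fun _ => 0), lint_pow _ (by positivity) _ le_rfl zero_le_one,
    lintegral_zero, add_zero]
  · congr 1
    norm_num
  · intro s hs
    simp [eIn, not_le.2 hs]
  · intro s hs hs'
    rw [eIn, if_pos hs', ← ENNReal.ofReal_mul (by norm_num)]

theorem mass_fOut : ∫⁻ s in Ioi (0 : ℝ), ENNReal.ofReal (fOut s) * ENNReal.ofReal (s ^ 2) =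
    ENNReal.ofReal 576 := by
  rw [split2 zero_le_one, lint_congr_Ioc (a := 0) (b := 1) (G := fun _ => 0),
    lint_congr_Ioi (a := 1) (G := fun s => ENNReal.ofReal (1728 * s⁻¹ ^ (2 + 2))),
    lint_invpow_Ioi _ (by norm_num) _ one_pos, lintegral_zero, zero_add]
  · congr 1
    norm_num
  · intro s hs
    have : 0 < s := by linarith
    rw [fOut, if_neg (not_le.2 hs), ← ENNReal.ofReal_mul (by positivity)]
    congr 1
    norm_num only
    field_simp
  · intro s hs hs'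
    simp [fOut, hs']

end Pool.Agent.P.MP_d10cfe_mp
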