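import Mathlib

set_option autoImplicit false

namespace Pool.Agent.P.MP_d10cfe_mp

open MeasureTheory Set Real
open scoped ENNReal

abbrev E3 : Type := EuclideanSpace ℝ (Fin 3)

noncomputable def toE (p : ℝ × ℝ × ℝ) : E3 := !₂[p.1, p.2.1, p.2.2]

theorem mp_toE : MeasurePreserving toE := by
  have h1 := PiLp.volume_preserving_toLp (ι := Fin 3)
  have h2 := (volume_preserving_piFinSuccAbove (fun _ : Fin 3 => ℝ) 0).symm
  have h3 : MeasurePreserving (Prod.map (id : ℝ → ℝ)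
      (MeasurableEquiv.finTwoArrow (α := ℝ)).symm) :=
    (MeasurePreserving.id volume).prod ((volume_preserving_finTwoArrow ℝ).symm _)
  have h := (h1.comp h2).comp h3
  have e : toE = ((@WithLp.toLp 2 (Fin 3 → ℝ)) ∘
      (MeasurableEquiv.piFinSuccAbove (fun _ : Fin 3 => ℝ) 0).symm) ∘
      (Prod.map (id : ℝ → ℝ) (MeasurableEquiv.finTwoArrow (α := ℝ)).symm) := by
    funext p
    ext i
    fin_cases i <;> rfl
  rw [e]
  exact h

theorem norm_toE (p : ℝ × ℝ × ℝ) : ‖toE p‖ = √(p.1 ^ 2 + (p.2.1 ^ 2 + p.2.2 ^ 2)) := by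
  rw [EuclideanSpace.norm_eq]
  simp [toE, Fin.sum_univ_three, add_assoc]

theorem lintegral_radial2 (H : ℝ → ℝ≥0∞) (hH : Measurable H) :
    ∫⁻ q : ℝ × ℝ, H (q.1 ^ 2 + q.2 ^ 2) =
      ENNReal.ofReal (2 * π) * ∫⁻ s : ℝ, ENNReal.ofReal s * H (s ^ 2) := by
  rw [← lintegral_comp_polarCoord_symm]
  have h1 : ∀ p : ℝ × ℝ, ENNReal.ofReal p.1 •
      H ((polarCoord.symm p).1 ^ 2 + (polarCoord.symm p).2 ^ 2) =
      ENNReal.ofReal p.1 * H (p.1 ^ 2) * 1 := by
    intro p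
    simp only [polarCoord_symm_apply, smul_eq_mul, mul_one]
    congr 2
    nlinarith [sin_sq_add_cos_sq p.2]
  simp_rw [h1]
  rw [show polarCoord.target = Ioi (0 : ℝ) ×ˢ Ioo (-π) π from rfl, Measure.volume_eq_prod,
    ← Measure.prod_restrict,
    lintegral_prod_mul (f := fun s : ℝ => ENNReal.ofReal s * H (s ^ 2)) (g := fun _ : ℝ => 1)
      (by fun_prop) (by fun_prop)]
  rw [lintegral_one, Measure.restrict_apply_univ, Real.volume_Ioo, mul_comm]
  congr 1
  · congr 1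
    ring
  · refine setLIntegral_eq_of_support_subset ?_
    intro s hs
    by_contra h
    simp only [mem_Ioi, not_lt] at h
    exact hs (by simp [ENNReal.ofReal_of_nonpos h])

theorem lintegral_cyl (G : ℝ → ℝ → ℝ≥0∞) (hG : Measurable (Function.uncurry G)) :
    ∫⁻ y : E3, G ‖y‖ (y 0) = ENNReal.ofReal (2 * π) *
      ∫⁻ r in Ioi (0 : ℝ), ∫⁻ θ in Ioo (0 : ℝ) π,
        ENNReal.ofReal (r ^ 2 * sin θ) * G r (r * cos θ) := by
  have hG' : ∀ {α : Type} [MeasurableSpace α] (f g : α → ℝ), Measurable f → Measurable g →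
      Measurable (fun a => G (f a) (g a)) := fun f g hf hg => hG.comp (hf.prodMk hg)
  rw [← mp_toE.lintegral_comp (hG' _ _ (by fun_prop) (by fun_prop))]
  have h0 : ∀ p : ℝ × ℝ × ℝ, G ‖toE p‖ (toE p 0) =
      G (√(p.1 ^ 2 + (p.2.1 ^ 2 + p.2.2 ^ 2))) p.1 := by
    intro p
    rw [norm_toE]
    rfl
  simp_rw [h0]
  rw [Measure.volume_eq_prod, lintegral_prod _ (hG' _ _ (by fun_prop) (by fun_prop)).aemeasurable]
  have h1 : ∀ t : ℝ, ∫⁻ q : ℝ × ℝ, G (√(t ^ 2 + (q.1 ^ 2 + q.2 ^ 2))) t =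
      ENNReal.ofReal (2 * π) * ∫⁻ s : ℝ, ENNReal.ofReal s * G (√(t ^ 2 + s ^ 2)) t := fun t =>
    lintegral_radial2 (fun u => G (√(t ^ 2 + u)) t) (hG' _ _ (by fun_prop) (by fun_prop))
  simp_rw [h1]
  have hm : Measurable (fun p : ℝ × ℝ =>
      ENNReal.ofReal p.2 * G (√(p.1 ^ 2 + p.2 ^ 2)) p.1) :=
    Measurable.mul (by fun_prop) (hG' _ _ (by fun_prop) (by fun_prop))
  rw [lintegral_const_mul' _ _ ENNReal.ofReal_ne_top, ← lintegral_prod _ hm.aemeasurable,
    ← Measure.volume_eq_prod, ← lintegral_comp_polarCoord_symm]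
  congr 1
  rw [show polarCoord.target = Ioi (0 : ℝ) ×ˢ Ioo (-π) π from rfl]
  have h2 : ∀ p ∈ Ioi (0 : ℝ) ×ˢ Ioo (-π) π, ENNReal.ofReal p.1 •
      (ENNReal.ofReal (polarCoord.symm p).2 *
        G (√((polarCoord.symm p).1 ^ 2 + (polarCoord.symm p).2 ^ 2)) (polarCoord.symm p).1) =
      ENNReal.ofReal (p.1 ^ 2 * sin p.2) * G p.1 (p.1 * cos p.2) := by
    intro p hp
    have hp1 : 0 < p.1 := hp.1
    simp only [polarCoord_symm_apply, smul_eq_mul]
    have : √((p.1 * cos p.2) ^ 2 + (p.1 * sin p.2) ^ 2) = p.1 := by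
      rw [show (p.1 * cos p.2) ^ 2 + (p.1 * sin p.2) ^ 2 = p.1 ^ 2 by
        nlinarith [sin_sq_add_cos_sq p.2], sqrt_sq hp1.le]
    rw [this, ← mul_assoc, ← ENNReal.ofReal_mul hp1.le]
    congr 2
    ring
  have hm2 : Measurable (fun p : ℝ × ℝ =>
      ENNReal.ofReal (p.1 ^ 2 * sin p.2) * G p.1 (p.1 * cos p.2)) :=
    Measurable.mul (by fun_prop) (hG' _ _ (by fun_prop) (by fun_prop))
  rw [setLIntegral_congr_fun (measurableSet_Ioi.prod measurableSet_Ioo) h2, Measure.volume_eq_prod,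
    ← Measure.prod_restrict, lintegral_prod _ hm2.aemeasurable]
  refine setLIntegral_congr_fun measurableSet_Ioi ?_
  intro r _
  simp only
  have h3 : Ioo (-π) π = Ioc (-π) 0 ∪ Ioo 0 π := by
    rw [Ioc_union_Ioo_eq_Ioo (by linarith [pi_pos]) pi_pos]
  rw [h3, lintegral_union measurableSet_Ioo (by
    rw [disjoint_left]
    intro θ h1 h2
    linarith [h1.2, h2.1])]
  rw [setLIntegral_congr_fun (g := fun _ => 0) measurableSet_Ioc, lintegral_zero, zero_add]
  intro θ hθ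
  have : sin θ ≤ 0 := sin_nonpos_of_nonpos_of_neg_pi_le hθ.2 hθ.1.le
  simp only
  rw [ENNReal.ofReal_of_nonpos (mul_nonpos_of_nonneg_of_nonpos (sq_nonneg r) this), zero_mul]

theorem angular (a r : ℝ) (ha : 0 ≤ a) (hr : 0 < r) (har : r ≠ a) :
    ∫⁻ θ in Ioo (0 : ℝ) π, ENNReal.ofReal (sin θ * (√(a ^ 2 - 2 * a * (r * cos θ) + r ^ 2))⁻¹) =
      ENNReal.ofReal (2 / max a r) := by
  have hpos : ∀ θ : ℝ, 0 < a ^ 2 - 2 * a * (r * cos θ) + r ^ 2 := by
    intro θ
    have h1 : 0 < (a - r) ^ 2 := by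
      have : a - r ≠ 0 := sub_ne_zero.2 har.symm
      positivity
    have h2 : 0 ≤ a * r * (1 - cos θ) := mul_nonneg (mul_nonneg ha hr.le)
      (by linarith [cos_le_one θ])
    nlinarith
  have hcont : Continuous
      (fun θ : ℝ => sin θ * (√(a ^ 2 - 2 * a * (r * cos θ) + r ^ 2))⁻¹) := by
    refine continuous_sin.mul (Continuous.inv₀ (by fun_prop) ?_)
    intro θ
    exact (sqrt_pos.2 (hpos θ)).ne'
  rw [← ofReal_integral_eq_lintegral_ofReal
    ((hcont.integrableOn_Icc).mono_set Ioo_subset_Icc_self)]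
  · congr 1
    rw [← integral_Ioc_eq_integral_Ioo, ← intervalIntegral.integral_of_le pi_pos.le]
    rcases ha.eq_or_lt with h0 | h0
    · subst h0
      simp only [ne_eq, OfNat.ofNat_ne_zero, not_false_eq_true, zero_pow, mul_zero, zero_mul,
        sub_zero, zero_add, sqrt_sq hr.le]
      rw [intervalIntegral.integral_mul_const, integral_sin, max_eq_right hr.le]
      simp
      ring
    · have hder : ∀ θ : ℝ, HasDerivAt
          (fun θ : ℝ => √(a ^ 2 - 2 * a * (r * cos θ) + r ^ 2) / (a * r))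
          (sin θ * (√(a ^ 2 - 2 * a * (r * cos θ) + r ^ 2))⁻¹) θ := by
        intro θ
        have h1 : HasDerivAt (fun θ : ℝ => a ^ 2 - 2 * a * (r * cos θ) + r ^ 2)
            (2 * a * (r * sin θ)) θ := by
          have := ((((hasDerivAt_cos θ).const_mul r).const_mul (2 * a)).const_sub (a ^ 2)).add_const
            (r ^ 2)
          refine this.congr_deriv ?_
          ring
        have h2 := (h1.sqrt (hpos θ).ne').div_const (a * r)
        refine h2.congr_deriv ?_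
        have := (sqrt_pos.2 (hpos θ)).ne'
        field_simp
      rw [intervalIntegral.integral_eq_sub_of_hasDerivAt (fun θ _ => hder θ)
        (hcont.intervalIntegrable _ _)]
      simp only [cos_pi, cos_zero]
      rw [show a ^ 2 - 2 * a * (r * -1) + r ^ 2 = (a + r) ^ 2 by ring,
        show a ^ 2 - 2 * a * (r * 1) + r ^ 2 = (a - r) ^ 2 by ring, sqrt_sq_eq_abs, sqrt_sq_eq_abs,
        abs_of_pos (by linarith)]
      rcases le_total a r with h | h
      · rw [max_eq_right h, abs_of_nonpos (by linarith)]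
        field_simp
        ring
      · rw [max_eq_left h, abs_of_nonneg (by linarith)]
        field_simp
        ring
  · refine (ae_restrict_iff' measurableSet_Ioo).2 (Filter.Eventually.of_forall ?_)
    intro θ hθ
    exact mul_nonneg (sin_nonneg_of_nonneg_of_le_pi hθ.1.le hθ.2.le) (by positivity)

theorem norm_axis_sub (a : ℝ) (y : E3) :
    ‖(EuclideanSpace.single 0 a : E3) - y‖ = √(a ^ 2 - 2 * a * y 0 + ‖y‖ ^ 2) := by
  rw [EuclideanSpace.norm_eq, EuclideanSpace.norm_sq_eq]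
  congr 1
  simp [Fin.sum_univ_three]
  ring

/-- Newton's shell theorem. -/
theorem newton (g : ℝ → ℝ≥0∞) (hg : Measurable g) (x : E3) :
    ∫⁻ y : E3, g ‖y‖ * ENNReal.ofReal (‖x - y‖⁻¹) =
      ENNReal.ofReal (4 * π) * ∫⁻ r in Ioi (0 : ℝ), g r * ENNReal.ofReal (r ^ 2 / max ‖x‖ r) := by
  set a := ‖x‖ with ha
  have ha0 : 0 ≤ a := norm_nonneg x
  have hn : ‖x‖ = ‖(EuclideanSpace.single 0 a : E3)‖ := by simp [ha]
  set R := Submodule.reflection (ℝ ∙ (x - EuclideanSpace.single 0 a))ᗮ with hR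
  have hRx : R x = EuclideanSpace.single 0 a := Submodule.reflection_sub hn
  have h1 : ∀ y : E3, g ‖y‖ * ENNReal.ofReal (‖x - y‖⁻¹) =
      (fun z : E3 => g ‖z‖ * ENNReal.ofReal ((√(a ^ 2 - 2 * a * z 0 + ‖z‖ ^ 2))⁻¹)) (R y) := by
    intro y
    simp only
    rw [← norm_axis_sub, ← hRx, ← map_sub, R.norm_map, R.norm_map]
  rw [lintegral_congr h1, R.measurePreserving.lintegral_comp (f := fun z : E3 =>
      g ‖z‖ * ENNReal.ofReal ((√(a ^ 2 - 2 * a * z 0 + ‖z‖ ^ 2))⁻¹)) (by fun_prop),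
    lintegral_cyl (fun r t => g r * ENNReal.ofReal ((√(a ^ 2 - 2 * a * t + r ^ 2))⁻¹))
      (by unfold Function.uncurry; fun_prop)]
  have h2 : ∀ᵐ r ∂(volume.restrict (Ioi (0 : ℝ))), ∫⁻ θ in Ioo (0 : ℝ) π,
      ENNReal.ofReal (r ^ 2 * sin θ) *
        (g r * ENNReal.ofReal ((√(a ^ 2 - 2 * a * (r * cos θ) + r ^ 2))⁻¹)) =
      2 * (g r * ENNReal.ofReal (r ^ 2 / max a r)) := by
    have h3 : ∀ᵐ r ∂(volume.restrict (Ioi (0 : ℝ))), r ≠ a :=
      ae_restrict_of_ae (Measure.ae_ne volume a)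
    filter_upwards [h3, ae_restrict_mem measurableSet_Ioi] with r hra hr
    have hr' : 0 < r := hr
    have h4 : ∀ θ : ℝ, ENNReal.ofReal (r ^ 2 * sin θ) *
        (g r * ENNReal.ofReal ((√(a ^ 2 - 2 * a * (r * cos θ) + r ^ 2))⁻¹)) =
        (g r * ENNReal.ofReal (r ^ 2)) *
          ENNReal.ofReal (sin θ * (√(a ^ 2 - 2 * a * (r * cos θ) + r ^ 2))⁻¹) := by
      intro θ
      rw [ENNReal.ofReal_mul (sq_nonneg r), ENNReal.ofReal_mul' (by positivity)]
      ring
    simp_rw [h4]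
    rw [lintegral_const_mul _ (by fun_prop), angular a r ha0 hr' hra, mul_assoc,
      ← ENNReal.ofReal_mul (sq_nonneg r), show r ^ 2 * (2 / max a r) = 2 * (r ^ 2 / max a r) by ring,
      ENNReal.ofReal_mul (by norm_num)]
    simp only [ENNReal.ofReal_ofNat]
    ring
  rw [lintegral_congr_ae h2, lintegral_const_mul' _ _ (by simp), ← mul_assoc,
    show 4 * π = 2 * π * 2 by ring, ENNReal.ofReal_mul (p := 2 * π) (by positivity)]
  simp

/-- Integral of a radial function. -/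
theorem lintegral_radial3 (g : ℝ → ℝ≥0∞) (hg : Measurable g) :
    ∫⁻ y : E3, g ‖y‖ =
      ENNReal.ofReal (4 * π) * ∫⁻ r in Ioi (0 : ℝ), g r * ENNReal.ofReal (r ^ 2) := by
  have h := newton (fun r => g r * ENNReal.ofReal r) (by fun_prop) 0
  have h1 : ∀ᵐ y : E3, g ‖y‖ * ENNReal.ofReal ‖y‖ * ENNReal.ofReal (‖0 - y‖⁻¹) = g ‖y‖ := by
    filter_upwards [Measure.ae_ne volume (0 : E3)] with y hy
    have : 0 < ‖y‖ := norm_pos_iff.2 hy
    rw [zero_sub, norm_neg, mul_assoc, ← ENNReal.ofReal_mul this.le, mul_inv_cancel₀ this.ne']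
    simp
  rw [lintegral_congr_ae h1] at h
  rw [h]
  congr 1
  refine setLIntegral_congr_fun measurableSet_Ioi ?_
  intro r hr
  have hr' : 0 < r := hr
  simp only [norm_zero]
  rw [max_eq_right hr'.le, mul_assoc, ← ENNReal.ofReal_mul hr'.le]
  congr 2
  field_simp

end Pool.Agent.P.MP_d10cfe_mp
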